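import Pool.Agent.P.MP_4c0b8d_co.M.Iface

/-! Every box family is at most as large as an extremal one. -/

set_option linter.unusedSectionVars false

namespace Pool.Agent.P.MP_4c0b8d_co.M

open Finset

variable {ι : Type} [Fintype ι] [DecidableEq ι] {X : ι → Finset ℕ} {k : ι → ℕ}

lemma box_sum (o : Ok X k) {I : Finset ℕ} (hI : I ⊆ univ.biUnion X) :
    ∑ u, (I ∩ X u).card = I.card := by
  rw [← card_biUnion fun u _ v _ e => (o.disj u v e).mono inter_subset_right inter_subset_right,
    ← inter_biUnion, inter_eq_left.2 hI]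

lemma box_ins (o : Ok X k) {J : Finset ℕ} {x : ℕ} {s : ι} (h1 : x ∉ J) (h2 : x ∈ X s) :
    (fun u => (insert x J ∩ X u).card) =
      Function.update (fun u => (J ∩ X u).card) s ((J ∩ X s).card + 1) := by
  funext u
  by_cases e : u = s
  · rw [e, Function.update_self, insert_inter_of_mem h2,
      card_insert_of_notMem fun h => h1 (mem_inter.1 h).1]
  · rw [Function.update_of_ne e, insert_inter_of_notMem fun h => e (o.eq h h2)]

lemma box_full (h4 : S_R3) (o : Ok X k) {t s : ι} {i : ι → ℕ} (h1 : ∀ u, i u ≤ k u)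
    (h2 : k t = 1 → i t = 0) (hs : 2 ≤ k s) :
    h (fun u => (X u).card) k t (Function.update i s (k s)) ≤ Mx (fun u => (X u).card) k := by
  refine h4 ι _ k t _ (fun u => ⟨o.pos u, o.two u⟩) (fun u => ?_) (fun e => ?_)
    (.inl ⟨s, Function.update_self .., hs⟩)
  · by_cases e : u = s
    · rw [e, Function.update_self]
    · rw [Function.update_of_ne e]; exact h1 u
  · rw [Function.update_of_ne (by rintro rfl; omega)]; exact h2 e

lemma box_zero {I : Finset ℕ} {t : ι} (h : k t = 1 → Disjoint I (X t)) (e : k t = 1) :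
    (I ∩ X t).card = 0 := by rw [disjoint_iff_inter_eq_empty.1 (h e), card_empty]

lemma box_up (h1 : S_HC) (h3 : S_QC) (h4 : S_R3) (o : Ok X k) {t s : ι} {c x : ℕ} {J : Finset ℕ}
    (hc : c ∈ X t) (hx : x ∈ X s) (hJ : J ⊆ univ.biUnion X) (hcJ : c ∉ J) (hxJ : x ∉ J)
    (hcx : c ≠ x) (hk : ∀ u, (J ∩ X u).card ≤ k u) (hs : 2 ≤ k s)
    (hd : k t = 1 → Disjoint J (X t)) (hle : (H X k c J).card ≤ (H X k c (insert x J)).card) :
    (H X k c J).card ≤ Mx (fun u => (X u).card) k := by
  have e1 := h1 ι X k t c J o hc hJ hcJ hk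
  have f := box_full h4 o (t := t) hk (box_zero hd) hs
  rcases (hk s).eq_or_lt with e | l
  · rw [← e, Function.update_eq_self s fun u => (J ∩ X u).card, ← e1] at f
    exact_mod_cast f
  have e2 := h1 ι X k t c (insert x J) o hc
    (insert_subset (mem_biUnion.2 ⟨s, mem_univ _, hx⟩) hJ) (by simp [hcx, hcJ]) fun u => by
      rw [congrFun (box_ins o hxJ hx) u]
      by_cases e : u = s
      · rw [e, Function.update_self]; exact l
      · rw [Function.update_of_ne e]; exact hk u
  have q := (h3 ι _ k t s (fun u => (J ∩ X u).card) _ (fun u => ⟨o.pos u, o.two u⟩) l).1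
  rw [Function.update_eq_self s fun u => (J ∩ X u).card, ← box_ins o hxJ hx, ← e1, ← e2] at q
  exact_mod_cast (q (by exact_mod_cast hle)).trans f

theorem p_BOX (h1 : S_HC) (h2 : S_TRI) (h3 : S_QC) (h4 : S_R3) : S_BOX := by
  intro ι _ _ X k t y I o hy hI hyI hk hc hd
  obtain ⟨m, hm⟩ := Nat.exists_eq_add_of_le' hc
  clear hc
  induction m generalizing I with
  | zero =>
    by_cases hs : ∃ s, 0 < (I ∩ X s).card ∧ (I ∩ X s).card < k s
    swap
    · have := h4 ι _ k t _ (fun u => ⟨o.pos u, o.two u⟩) hk (box_zero hd)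
        (.inr ⟨fun u => by have := hk u; have := not_exists.1 hs u; omega,
          by rw [box_sum o hI]; omega⟩)
      rw [← h1 ι X k t y I o hy hI hyI hk] at this
      exact_mod_cast this
    obtain ⟨s, p, l⟩ := hs
    have hs : 2 ≤ k s := by omega
    obtain ⟨z, hz0⟩ := card_pos.1 p
    obtain ⟨hzI, hz⟩ := mem_inter.1 hz0
    obtain ⟨v, hv⟩ := card_eq_one.1 (show (I.erase z).card = 1 by rw [card_erase_of_mem hzI, hm])
    have hzv : v ≠ z := (mem_erase.1 (hv ▸ mem_singleton_self v)).1
    obtain rfl : I = {z, v} := by rw [← insert_erase hzI, hv]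
    obtain ⟨x, hx, hx'⟩ := exists_mem_notMem_of_card_lt_card (s := {y, z, v}) (t := X s)
      (by have := card_le_three (a := y) (b := z) (c := v); have := o.two s; omega)
    simp only [mem_insert, mem_singleton, not_or] at hx' hyI
    have hvU : v ∈ univ.biUnion X := hI (by simp)
    have hyU : y ∈ univ.biUnion X := mem_biUnion.2 ⟨t, mem_univ _, hy⟩
    obtain ⟨e, q⟩ := h2 ι X k s y z v x o hyU hvU hz hx hyI.1 hyI.2 (Ne.symm hx'.1) hzv.symm
      (Ne.symm hx'.2.1) (Ne.symm hx'.2.2)
    by_cases c : (H X k y {z, v}).card ≤ (H X k y {x, z, v}).card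
    · exact box_up h1 h3 h4 o hy hx hI (by simp [hyI]) (by simp [hx']) (Ne.symm hx'.1) hk hs hd c
    obtain ⟨u, -, hu⟩ := mem_biUnion.1 hvU
    rw [e] at q c ⊢
    refine box_up h1 h3 h4 o hu hx (insert_subset hyU (singleton_subset_iff.2 (hI (by simp))))
      (by simp [hzv, Ne.symm hyI.2]) (by simp [hx']) (Ne.symm hx'.2.2) (fun u' => ?_) hs
      (fun e' => ?_) (by omega)
    · by_cases e' : u' = s
      · exact ((card_le_card inter_subset_left).trans card_le_two).trans (e' ▸ hs)
      · rw [pair_comm, insert_inter_of_notMem fun h => e' (o.eq h hz)]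
        exact (card_le_card inter_subset_left).trans (o.pos u')
    · simp only [disjoint_insert_left, disjoint_singleton_left]
      refine ⟨fun h => ?_, fun h => ?_⟩
      · obtain rfl := o.eq h hy
        exact disjoint_left.1 (hd e') (by simp) hu
      · obtain rfl := o.eq h hz
        omega
  | succ m ih =>
    have e1 := h1 ι X k t y I o hy hI hyI hk
    by_cases hs : ∃ s, 0 < (I ∩ X s).card ∧ (I ∩ X s).card < k s
    swap
    · have := h4 ι _ k t _ (fun u => ⟨o.pos u, o.two u⟩) hk (box_zero hd)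
        (.inr ⟨fun u => by have := hk u; have := not_exists.1 hs u; omega,
          by rw [box_sum o hI]; omega⟩)
      rw [← e1] at this
      exact_mod_cast this
    obtain ⟨s, p, l⟩ := hs
    have hs : 2 ≤ k s := by omega
    obtain ⟨z, hz0⟩ := card_pos.1 p
    obtain ⟨hzI, hz⟩ := mem_inter.1 hz0
    have hk' : ∀ u, (I.erase z ∩ X u).card ≤ k u := fun u =>
      (card_le_card (inter_subset_inter_right (erase_subset _ _))).trans (hk u)
    have hd' : k t = 1 → Disjoint (I.erase z) (X t) := fun e =>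
      (hd e).mono_left (erase_subset _ _)
    have hI' := (erase_subset z I).trans hI
    have hy' : y ∉ I.erase z := fun h => hyI (mem_of_mem_erase h)
    have b := box_ins o (notMem_erase z I) hz
    rw [insert_erase hzI] at b
    have b' := congrFun b s
    rw [Function.update_self] at b'
    have q := (h3 ι _ k t s (fun u => (I.erase z ∩ X u).card) (I.erase z ∩ X s).card
      (fun u => ⟨o.pos u, o.two u⟩) (by omega)).2
    rw [Function.update_eq_self s fun u => (I.erase z ∩ X u).card, ← b, ← e1,
      ← h1 ι X k t y _ o hy hI' hy' hk'] at q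
    rcases q with q | q
    · exact_mod_cast q.trans (box_full h4 o hk' (box_zero hd') hs)
    · exact (Nat.cast_le.1 q).trans
        (ih _ hI' hy' hk' hd' (by rw [card_erase_of_mem hzI, hm]; rfl))

end Pool.Agent.P.MP_4c0b8d_co.M
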