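import Pool.Agent.P.MP_4c0b8d_co.M.Iface
import Pool.Agent.P.MP_4c0b8d_co.Arith

/-! The two arithmetic steps. -/

namespace Pool.Agent.P.MP_4c0b8d_co.M

open Finset

/-- The facts on one part with `k ≥ 2`. -/
lemma d_facts {n k : ℕ} (hk : 2 ≤ k) (hn : 2 * k ≤ n) : ∃ (j : ℕ) (s t c d y : ℤ),
    n = 2 * k + j ∧ n - k = k + j ∧ s = ((n - 1).choose (k - 1) : ℕ) ∧
    t = ((n - 1).choose k : ℕ) ∧ c = ((n - k - 1).choose (k - 1) : ℕ) ∧
    d = ((n - k).choose k : ℕ) ∧ (n.choose k : ℤ) = s + t ∧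
    k * t = (k + j) * s ∧ k * d = (k + j) * c ∧ s + d ≤ t + 1 ∧
    j + 1 ≤ c ∧ c + k * y ≤ s ∧ (k - 1) * c = (j + 1) * y ∧ 1 ≤ y := by
  obtain ⟨p, rfl⟩ : ∃ p, k = p + 2 := ⟨k - 2, by omega⟩
  obtain ⟨j, rfl⟩ := Nat.exists_eq_add_of_le hn
  obtain ⟨s, t, c, d, y, es, et, ec, ed, a1, a2, a3, a4, a5, a6, a7⟩ := Arith.facts p j
  have e1 : 2 * (p + 2) + j - 1 = 2 * (p + 1) + 1 + j := by omega
  have e2 : p + 2 - 1 = p + 1 := by omega
  have e3 : 2 * (p + 2) + j - (p + 2) - 1 = 2 * (p + 1) + 1 + j - (p + 1) - 1 := by omega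
  have e4 : 2 * (p + 2) + j - (p + 2) = 2 * (p + 1) + 1 + j - (p + 1) := by omega
  have e5 : 2 * (p + 2) + j = (2 * (p + 1) + 1 + j) + 1 := by omega
  refine ⟨j, s, t, c, d, y, rfl, by omega, by rw [e1, e2, es], by rw [e1, et], by rw [e3, e2, ec],
    by rw [e4, ed], ?_, ?_, ?_, a3, a4, ?_, ?_, a7⟩
  · rw [e5, Nat.choose_succ_succ' _ (p + 1), es, et]
    push_cast
    rfl
  all_goals push_cast; linarith

lemma d_core1 (k j s t c y W : ℤ) (hk : 2 ≤ k) (hj : 0 ≤ j) (a1 : k * t = (k + j) * s)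
    (a5 : c + k * y ≤ s) (a6 : (k - 1) * c = (j + 1) * y) (a7 : 1 ≤ y)
    (h : (k + j) * (k + j + 1) ≤ k * k * W) : t + W * c ≤ W * s := by
  have hy : 0 ≤ k * y := mul_nonneg (by linarith) (by linarith)
  have h0 : 0 ≤ s - c := by linarith
  have g1 : k * y * (j + 1) ≤ (s - c) * (j + 1) :=
    mul_le_mul_of_nonneg_right (by linarith) (by linarith)
  have g2 : s * (k * (k - 1)) ≤ (s - c) * (k * (k - 1) + (j + 1)) := by
    have : k * ((k - 1) * c) = k * ((j + 1) * y) := by rw [a6]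
    nlinarith
  have g3 : k * (k - 1) + (j + 1) ≤ (k + j + 1) * (k - 1) := by nlinarith
  have g4 : s * (k * (k - 1)) ≤ (s - c) * ((k + j + 1) * (k - 1)) :=
    g2.trans (mul_le_mul_of_nonneg_left g3 h0)
  have g5 : (k + j) * (s * (k * (k - 1))) ≤ (k + j) * ((s - c) * ((k + j + 1) * (k - 1))) :=
    mul_le_mul_of_nonneg_left g4 (by linarith)
  have g6 : (k + j) * (k + j + 1) * ((s - c) * (k - 1)) ≤ k * k * W * ((s - c) * (k - 1)) :=
    mul_le_mul_of_nonneg_right h (mul_nonneg h0 (by linarith))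
  have g7 : (k * k * (k - 1)) * t ≤ (k * k * (k - 1)) * (W * (s - c)) := by
    have e : (k * k * (k - 1)) * t = (k + j) * (s * (k * (k - 1))) := by
      linear_combination (k * (k - 1)) * a1
    rw [e]
    linarith
  have hp : 0 < k * k * (k - 1) := mul_pos (mul_pos (by linarith) (by linarith)) (by linarith)
  have := le_of_mul_le_mul_left g7 hp
  linarith

theorem p_D1 : S_D1 := by
  intro n k W hk hn h
  obtain ⟨j, s, t, c, d, y, -, e0, es, et, ec, -, -, a1, -, -, -, a5, a6, a7⟩ := d_facts hk hn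
  rw [e0] at h
  have := d_core1 k j s t c y W (by exact_mod_cast hk) (by positivity) a1 a5 a6 a7
    (by exact_mod_cast h)
  zify
  rw [← es, ← et, ← ec]
  linarith

lemma d_core2 (L u s t d s' t' c' d' a b e : ℤ) (hL : 0 < L) (b1 : L * t' = u * s')
    (b2 : L * d' = u * c') (hx : 0 ≤ b * c') (hg : b * c' + 1 ≤ a * s') (h1 : u * s ≤ L * t)
    (a3 : s + d ≤ t + 1) (h2 : s * u ≤ L * (b * c' * (s - 1) + e)) :
    s * ((s' + t') * a) + t + c' * (d * b) ≤ s' * ((s + t) * a) + s * (d' * b) + e := by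
  have g1 : 1 * (L * t - u * s) ≤ (a * s' - b * c') * (L * t - u * s) :=
    mul_le_mul_of_nonneg_right (by linarith) (by linarith)
  have g2 : L * (b * c') * (s - 1) ≤ L * (b * c') * (t - d) :=
    mul_le_mul_of_nonneg_left (by linarith) (mul_nonneg hL.le hx)
  refine le_of_mul_le_mul_left (a := L) ?_ hL
  have e1 : L * (s * ((s' + t') * a) + t + c' * (d * b)) =
      L * s * s' * a + u * s * s' * a + L * t + L * c' * d * b := by
    linear_combination (s * a) * b1
  have e2 : L * (s' * ((s + t) * a) + s * (d' * b) + e) =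
      L * s * s' * a + L * t * s' * a + u * s * c' * b + L * e := by
    linear_combination (s * b) * b2
  rw [e1, e2]
  linarith

lemma d_core3 (l j s s' c' y' a b : ℤ) (hl : 2 ≤ l) (hj : 0 ≤ j) (hs : 2 ≤ s) (b4 : j + 1 ≤ c')
    (b5 : c' + l * y' ≤ s') (b7 : 1 ≤ y') (hb : 1 ≤ b) (hba : b ≤ a) :
    0 ≤ b * c' ∧ b * c' + 1 ≤ a * s' ∧ s * (l + j) ≤ l * (b * c' * (s - 1) + 1) := by
  have hly : l * 1 ≤ l * y' := mul_le_mul_of_nonneg_left b7 (by linarith)
  have hx : 1 * c' ≤ b * c' := mul_le_mul_of_nonneg_right hb (by linarith)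
  refine ⟨by linarith, ?_, ?_⟩
  · have g1 : b * (c' + 1) ≤ b * s' := mul_le_mul_of_nonneg_left (by linarith) (by linarith)
    have g2 : b * s' ≤ a * s' := mul_le_mul_of_nonneg_right hba (by linarith)
    linarith
  · have g1 : (j + 1) * (s - 1) ≤ b * c' * (s - 1) :=
      mul_le_mul_of_nonneg_right (by linarith) (by linarith)
    have g2 : l * ((j + 1) * (s - 1) + 1) ≤ l * (b * c' * (s - 1) + 1) :=
      mul_le_mul_of_nonneg_left (by linarith) (by linarith)
    have g3 : 0 ≤ j * (s - 2) := mul_nonneg hj (by linarith)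
    have g4 : 0 ≤ (l - 2) * (j * (s - 1)) :=
      mul_nonneg (by linarith) (mul_nonneg hj (by linarith))
    linarith

theorem p_D2 : S_D2 := by
  intro n k m l a b hk hn hl hm hkm hb hba h1
  obtain ⟨j, s, t, c, d, y, en, -, es, et, -, ed, eN, a1, -, a3, a4, a5, -, a7⟩ := d_facts hk hn
  have hk' : (2 : ℤ) ≤ k := by exact_mod_cast hk
  have hj : (0 : ℤ) ≤ j := by positivity
  have hs : 2 ≤ s := by
    have : (k : ℤ) * 1 ≤ k * y := mul_le_mul_of_nonneg_left a7 (by linarith)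
    linarith
  have hkm' : (k : ℤ) * m ≤ l * (2 * k + j) := by
    rw [en] at hkm
    exact_mod_cast hkm
  have hq : ((m : ℤ) - l) * s ≤ l * t := by
    refine le_of_mul_le_mul_left (a := (k : ℤ)) ?_ (by linarith)
    have e : (k : ℤ) * (l * t) = l * (k + j) * s := by linear_combination (l : ℤ) * a1
    have : ((k : ℤ) * (m - l)) * s ≤ (l * (k + j)) * s :=
      mul_le_mul_of_nonneg_right (by linarith) (by linarith)
    rw [e]
    linarith
  have hb' : (1 : ℤ) ≤ b := by exact_mod_cast hb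
  have hba' : (b : ℤ) ≤ a := by exact_mod_cast hba
  rcases hl.eq_or_lt with rfl | hl2
  · obtain ⟨h2, h3⟩ := h1 rfl
    obtain ⟨m, rfl⟩ : ∃ m', m = m' + 1 := ⟨m - 1, by omega⟩
    have h2' : (b : ℤ) + 1 ≤ a := by exact_mod_cast h2
    have h3' : (m : ℤ) ≤ b := by exact_mod_cast (by omega : m ≤ b)
    have := d_core2 1 m s t d 1 m 1 m a b m one_pos (by ring) (by ring) (by linarith) (by linarith)
      (by push_cast at hq; linarith) a3 (by
        have : (m : ℤ) * (s - 1) ≤ b * (s - 1) := mul_le_mul_of_nonneg_right h3' (by linarith)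
        linarith)
    simp only [if_true, Nat.add_sub_cancel, Nat.sub_self, Nat.choose_zero_right,
      Nat.choose_one_right]
    zify
    rw [← es, ← et, ← ed, eN]
    linarith
  · obtain ⟨j', s', t', c', d', y', em, -, es', -, ec', ed', eM, b1, b2, -, b4, b5, -, b7⟩ :=
      d_facts hl2 hm
    have hl' : (2 : ℤ) ≤ l := by exact_mod_cast hl2
    have hj' : (0 : ℤ) ≤ j' := by positivity
    have em' : (m : ℤ) - l = l + j' := by
      rw [em]
      push_cast
      ring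
    rw [em'] at hq
    obtain ⟨hx, hg, h2⟩ := d_core3 l j' s s' c' y' a b hl' hj' hs b4 b5 b7 hb' hba'
    have := d_core2 l (l + j') s t d s' t' c' d' a b 1 (by linarith) b1 b2 hx hg hq a3 h2
    rw [if_neg hl2.ne']
    zify
    rw [← es, ← et, ← ed, eN, ← es', ← ec', ← ed', eM]
    linarith

end Pool.Agent.P.MP_4c0b8d_co.M
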