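import Pool.Agent.P.MP_4c0b8d_co.M.Iface

namespace Pool.Agent.P.MP_4c0b8d_co.M

open Finset

lemma dt_kD {n k : ℕ} (hk : 1 ≤ k) (h : 2 * k ≤ n) :
    k * (n - k).choose k = (n - k) * (n - k - 1).choose (k - 1) := by
  obtain ⟨j, rfl⟩ : ∃ j, k = j + 1 := ⟨k - 1, by omega⟩
  obtain ⟨m, hm⟩ : ∃ m, n - (j + 1) = m + 1 := ⟨n - (j + 1) - 1, by omega⟩
  rw [hm, Nat.add_sub_cancel, Nat.add_sub_cancel, Nat.add_one_mul_choose_eq, mul_comm]

lemma dt_c (i r : ℕ) : r + 1 ≤ (i + 1 + r).choose (i + 1) := by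
  induction r with
  | zero => simp
  | succ r ih =>
    have h1 : (i + 1 + (r + 1)).choose (i + 1) =
        (i + 1 + r).choose i + (i + 1 + r).choose (i + 1) := Nat.choose_succ_succ _ _
    have h2 : 0 < (i + 1 + r).choose i := Nat.choose_pos (by omega)
    omega

lemma dt_lt {n k : ℕ} (hk : 1 ≤ k) (h : 2 * k ≤ n) : (n - k).choose k < n.choose k := by
  obtain ⟨j, rfl⟩ : ∃ j, k = j + 1 := ⟨k - 1, by omega⟩
  have h1 : (n - (j + 1) + 1).choose (j + 1) =
      (n - (j + 1)).choose j + (n - (j + 1)).choose (j + 1) := Nat.choose_succ_succ _ _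
  have h2 : 0 < (n - (j + 1)).choose j := Nat.choose_pos (by omega)
  have h3 : (n - (j + 1) + 1).choose (j + 1) ≤ n.choose (j + 1) :=
    Nat.choose_le_choose _ (by omega)
  omega

lemma dt_A {n k m : ℕ} (hk : 1 ≤ k) (h : 2 * k ≤ n) (hm : m * k ≤ n) :
    m ≤ (n - k).choose k + 1 := by
  have h1 := dt_kD hk h
  have h2 : 0 < (n - k - 1).choose (k - 1) := Nat.choose_pos (by omega)
  have h3 : n - k ≤ k * (n - k).choose k := h1 ▸ Nat.le_mul_of_pos_right _ h2
  refine Nat.le_of_mul_le_mul_left (c := k) ?_ hk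
  rw [mul_add, mul_comm k m]
  omega

lemma dt_B {N K n k : ℕ} (hN : 2 * K ≤ N) (hk : 2 ≤ k) (h : 2 * k ≤ n) (hr : k * N < K * n) :
    (N - K) * (N - K + 1) ≤ K * K * (n - k).choose k := by
  have h1 := dt_kD (by omega) h
  obtain ⟨i, rfl⟩ : ∃ i, k = i + 2 := ⟨k - 2, by omega⟩
  obtain ⟨r, rfl⟩ : ∃ r, n = 2 * (i + 2) + r := ⟨n - 2 * (i + 2), by omega⟩
  obtain ⟨R, rfl⟩ : ∃ R, N = 2 * K + R := ⟨N - 2 * K, by omega⟩
  have e1 : 2 * (i + 2) + r - (i + 2) = i + 2 + r := by omega
  have e2 : 2 * K + R - K = K + R := by omega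
  have e3 : i + 2 + r - 1 = i + 1 + r := by omega
  have e4 : i + 2 - 1 = i + 1 := rfl
  rw [e1, e3, e4] at h1
  rw [e1, e2]
  have h2 := dt_c i r
  generalize (i + 1 + r).choose (i + 1) = c at h1 h2
  generalize (i + 2 + r).choose (i + 2) = D at h1
  have h3 : (i + 2) * R < K * r := by nlinarith
  have h4 : K + R + 1 ≤ K * c := by nlinarith [Nat.mul_le_mul_left K h2]
  have h5 : (i + 2) * (K + R) ≤ K * (i + 2 + r) := by nlinarith
  refine Nat.le_of_mul_le_mul_left (c := i + 2) ?_ (by omega)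
  calc (i + 2) * ((K + R) * (K + R + 1)) = ((i + 2) * (K + R)) * (K + R + 1) := by ring
    _ ≤ (K * (i + 2 + r)) * (K * c) := Nat.mul_le_mul h5 h4
    _ = K * K * ((i + 2 + r) * c) := by ring
    _ = _ := by rw [← h1]; ring

lemma dt_B' {N K n : ℕ} (hN : 2 * K ≤ N) (h : 2 * 1 ≤ n) (hr : 1 * N < K * n) :
    N - K + 1 ≤ K * (n - 1).choose 1 := by
  obtain ⟨r, rfl⟩ : ∃ r, n = r + 1 := ⟨n - 1, by omega⟩
  rw [Nat.add_sub_cancel, Nat.choose_one_right]
  rw [mul_add] at hr
  omega

lemma dt_split {ι : Type} [Fintype ι] [DecidableEq ι] {t : ι} {S : Finset ι} (ht : t ∉ S)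
    {f g g' : ι → ℕ} {x : ℕ} (h1 : ∀ u, u ≠ t → u ∉ S → f u = g u) (h2 : f t = x)
    (h3 : ∀ u ∈ S, u ≠ t → f u = g' u) :
    ∏ u, f u = (∏ u ∈ (insert t S)ᶜ, g u) * (x * ∏ u ∈ S, g' u) := by
  rw [← prod_compl_mul_prod (insert t S), prod_insert ht, h2,
    prod_congr rfl fun u hu => h3 u hu (ne_of_mem_of_not_mem hu ht)]
  congr 1
  refine prod_congr rfl fun u hu => ?_
  rw [mem_compl, mem_insert, not_or] at hu
  exact h1 u hu.1 hu.2

theorem p_DT (h1 : S_D1) (h2 : S_D2) : S_DT := by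
  intro ι _ _ n k t S hk ht hkt hS
  have e1 : ∏ u, (n u - dl t u).choose (k u - dl t u) =
      (∏ u ∈ (insert t S)ᶜ, (n u).choose (k u)) *
        ((n t - 1).choose (k t - 1) * ∏ u ∈ S, (n u).choose (k u)) :=
    dt_split ht (fun u a _ => by simp [dl, a]) (by simp [dl]) fun u _ a => by simp [dl, a]
  have e2 : ∏ u, (n u - dl t u - if u ∈ S then k u else 0).choose (k u - dl t u) =
      (∏ u ∈ (insert t S)ᶜ, (n u).choose (k u)) *
        ((n t - 1).choose (k t - 1) * ∏ u ∈ S, (n u - k u).choose (k u)) :=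
    dt_split ht (fun u a b => by simp [dl, a, b]) (by simp [dl, ht])
      fun u b a => by simp [dl, a, b]
  have e3 : ∏ u, (n u - dl t u - if u ∈ S then k u else 0).choose
        (k u - if u ∈ S then k u else 0) =
      (∏ u ∈ (insert t S)ᶜ, (n u).choose (k u)) * ((n t - 1).choose (k t) * ∏ _u ∈ S, 1) :=
    dt_split ht (fun u a b => by simp [dl, a, b]) (by simp [dl, ht])
      fun u b a => by simp [b]
  rw [prod_const_one, mul_one] at e3
  have key : ∀ x y z : ℕ,
      (n t - 1).choose (k t - 1) * (∏ u ∈ S, (n u).choose (k u)) + (n t - 1).choose (k t) + y ≤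
        x + (n t - 1).choose (k t - 1) * (∏ u ∈ S, (n u - k u).choose (k u)) + z →
      (∏ u ∈ (insert t S)ᶜ, (n u).choose (k u)) * (x - y + z) ≤ Mx n k →
      h n k t (fun u => if u ∈ S then k u else 0) ≤ Mx n k := by
    intro x y z a b
    refine le_trans ?_ (Nat.cast_le.2 b)
    unfold h
    rw [e1, e2, e3]
    generalize (n t - 1).choose (k t - 1) * (∏ u ∈ S, (n u).choose (k u)) = A at a ⊢
    generalize (n t - 1).choose (k t - 1) * (∏ u ∈ S, (n u - k u).choose (k u)) = B at a ⊢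
    rw [Nat.cast_mul, Nat.cast_mul, Nat.cast_mul, Nat.cast_mul, ← mul_sub, ← mul_add]
    exact mul_le_mul_of_nonneg_left (by omega) (Nat.cast_nonneg _)
  have hD : ∀ u, 1 ≤ (n u - k u).choose (k u) := fun u =>
    Nat.choose_pos (by have := hk u; omega)
  have hk0 : ∀ u, (0 : ℚ) < k u := fun u => Nat.cast_pos.2 (hk u).1
  have hne : S.Nonempty := by
    rw [nonempty_iff_ne_empty]
    rintro rfl
    simp at hS
  obtain ⟨s, hs, hmin⟩ := exists_min_image S (fun u => (n u : ℚ) / k u) hne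
  rcases le_or_gt ((n s : ℚ) / k s) (n t / k t) with hc | hc
  · rw [div_le_div_iff₀ (hk0 s) (hk0 t)] at hc
    have hc' : k t * n s ≤ k s * n t := by
      rw [mul_comm (k t), mul_comm (k s)]
      exact_mod_cast hc
    have hst : s ≠ t := ne_of_mem_of_not_mem hs ht
    have ht' : t ∉ S.erase s := fun a => ht (mem_of_mem_erase a)
    have hv := le_Mx (n := n) (k := k) (t := s) (S := insert t (S.erase s)) (by simp [hst])
      (Or.inr (by rw [sum_insert ht']; omega))
    unfold val at hv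
    rw [insert_comm, insert_erase hs, prod_insert ht', prod_insert ht'] at hv
    refine key _ _ _ ?_ hv
    rw [← mul_prod_erase S _ hs, ← mul_prod_erase S _ hs]
    refine h2 _ _ _ _ _ _ hkt (hk t).2 (hk s).1 (hk s).2 hc' (one_le_prod' fun u _ => hD u)
      (prod_le_prod' fun u _ => Nat.choose_le_choose _ (Nat.sub_le _ _)) fun hl => ?_
    obtain ⟨u, hu⟩ : (S.erase s).Nonempty := by
      rw [nonempty_iff_ne_empty]
      intro a
      rw [← add_sum_erase S _ hs, a, sum_empty] at hS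
      omega
    refine ⟨prod_lt_prod (fun u _ => hD u)
      (fun u _ => Nat.choose_le_choose _ (Nat.sub_le _ _)) ⟨u, hu, dt_lt (hk u).1 (hk u).2⟩, ?_⟩
    have a := hmin u (mem_of_mem_erase hu)
    rw [div_le_div_iff₀ (hk0 s) (hk0 u), hl, Nat.cast_one, mul_one] at a
    have b := dt_A (m := n s) (hk u).1 (hk u).2 (by exact_mod_cast a)
    have c := single_le_prod' (f := fun u => (n u - k u).choose (k u)) (fun u _ => hD u) hu
    exact b.trans (Nat.succ_le_succ c)
  · have hr : ∀ u ∈ S, k u * n t < k t * n u := fun u hu => by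
      have a := hc.trans_le (hmin u hu)
      rw [div_lt_div_iff₀ (hk0 t) (hk0 u)] at a
      rw [mul_comm (k t), mul_comm (k u)]
      exact_mod_cast a
    have hv := le_Mx (n := n) (k := k) ht (Or.inl hkt)
    unfold val at hv
    rw [if_neg (by omega)] at hv
    refine key _ _ _ ?_ hv
    have hW : (n t - k t) * (n t - k t + 1) ≤
        k t * k t * ∏ u ∈ S, (n u - k u).choose (k u) := by
      by_cases a : ∃ u ∈ S, 2 ≤ k u
      · obtain ⟨u, hu, a⟩ := a
        exact (dt_B (hk t).2 a (hk u).2 (hr u hu)).trans (Nat.mul_le_mul_left _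
          (single_le_prod' (f := fun u => (n u - k u).choose (k u)) (fun u _ => hD u) hu))
      · have b : ∀ u ∈ S, k u = 1 := fun u hu => by
          have := (hk u).1
          have : ¬ 2 ≤ k u := fun c => a ⟨u, hu, c⟩
          omega
        rw [sum_congr rfl b, sum_const, smul_eq_mul, mul_one] at hS
        obtain ⟨u, hu, v, hv, huv⟩ := one_lt_card.1 hS
        have c : ∀ u ∈ S, n t - k t + 1 ≤ k t * (n u - k u).choose (k u) := fun u hu => by
          have c1 := (hk u).2
          have c2 := hr u hu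
          rw [b u hu] at c1 c2 ⊢
          exact dt_B' (hk t).2 c1 c2
        have d := prod_le_prod_of_subset_of_one_le' (f := fun u => (n u - k u).choose (k u))
          (s := {u, v}) (t := S) (by simp [insert_subset_iff, hu, hv]) fun u _ _ => hD u
        rw [prod_pair huv] at d
        refine le_trans ?_ (Nat.mul_le_mul_left _ d)
        rw [mul_mul_mul_comm]
        exact Nat.mul_le_mul ((Nat.le_succ _).trans (c u hu)) (c v hv)
    have := h1 _ _ _ hkt (hk t).2 hW
    rw [mul_comm, mul_comm _ ((n t - 1).choose (k t - 1))] at this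
    omega

end Pool.Agent.P.MP_4c0b8d_co.M
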