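import Pool.Agent.P.MP_4c0b8d_co.M.Iface

namespace Pool.Agent.P.MP_4c0b8d_co.M

open Finset

theorem glue (h1 : S_LOW) (h2 : S_P1) {ι : Type} [Fintype ι] [DecidableEq ι]
    {X : ι → Finset ℕ} {k : ι → ℕ} (o : Ok X k) (h3 : (∃ t, 2 ≤ k t) ∨ 3 ≤ Fintype.card ι) :
    IsGreatest {m : ℕ | ∃ F : Finset (Finset ℕ),
      (∀ A ∈ F, A ⊆ univ.biUnion X ∧ ∀ u, (A ∩ X u).card = k u) ∧
      (∀ A ∈ F, ∀ B ∈ F, A ∩ B ≠ ∅) ∧ (∀ x, ∃ A ∈ F, x ∉ A) ∧ m = F.card}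
      (Mx (fun u => (X u).card) k) := by
  constructor
  · have ne : (univ.filter fun p : ι × Finset ι =>
        p.1 ∉ p.2 ∧ (2 ≤ k p.1 ∨ 2 ≤ ∑ u ∈ p.2, k u)).Nonempty := by
      rcases h3 with ⟨t, ht⟩ | h3
      · exact ⟨(t, ∅), mem_filter.2 ⟨mem_univ _, notMem_empty _, Or.inl ht⟩⟩
      · obtain ⟨t⟩ : Nonempty ι := Fintype.card_pos_iff.1 (by omega)
        refine ⟨(t, univ.erase t), mem_filter.2 ⟨mem_univ _, notMem_erase _ _, Or.inr ?_⟩⟩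
        have := card_nsmul_le_sum (univ.erase t) k 1 fun u _ => o.pos u
        rw [card_erase_of_mem (mem_univ _), card_univ, smul_eq_mul] at this
        exact le_trans (by omega) this
    obtain ⟨p, hp, e⟩ := exists_mem_eq_sup _ ne fun p => val (fun u => (X u).card) k p.1 p.2
    obtain ⟨F, a, b, c, d⟩ := h1 ι X k p.1 p.2 o (mem_filter.1 hp).2.1 (mem_filter.1 hp).2.2
    exact ⟨F, fun A hA => mem_V.1 (a hA),
      fun A hA B hB e => b A hA B hB (disjoint_iff_inter_eq_empty.2 e), c, e.trans d.symm⟩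
  · rintro m ⟨F, a, b, c, rfl⟩
    have pos : ∀ A ∈ F, 0 < w X k (univ.biUnion X) A := fun A hA => card_pos.2
      ⟨A, mem_filter.2 ⟨mem_V.2 (a A hA), inter_eq_left.2 (a A hA).1⟩⟩
    refine le_trans ?_ (h2 ι X k _ F o Subset.rfl ⟨fun A hA => (a A hA).1, pos,
      fun A hA B hB e => b A hA B hB (disjoint_iff_inter_eq_empty.1 e), fun x _ => c x⟩)
    rw [card_eq_sum_ones]
    exact sum_le_sum pos

end Pool.Agent.P.MP_4c0b8d_co.M
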