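import Pool.Agent.P.MP_4c0b8d_co.M.Iface

/-! The sizes of box families. -/

namespace Pool.Agent.P.MP_4c0b8d_co.M

open Finset

theorem hc_count {α : Type} (s : Finset α) (p q r t : α → Prop) [DecidablePred p]
    [DecidablePred q] [DecidablePred r] [DecidablePred t]
    (h : ∀ a, (p a ∨ q a ↔ r a ∨ t a) ∧ ¬ (p a ∧ q a) ∧ ¬ (r a ∧ t a)) :
    (s.filter p).card + (s.filter q).card = (s.filter r).card + (s.filter t).card := by
  simp only [card_filter, ← sum_add_distrib]
  refine sum_congr rfl fun a _ => ?_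
  have := h a
  by_cases h1 : p a <;> by_cases h2 : q a <;> by_cases h3 : r a <;> by_cases h4 : t a <;>
    simp_all

theorem hc_a {A I : Finset ℕ} {y : ℕ} (hy : y ∉ I) :
    A ∩ insert y I = {y} ↔ y ∈ A ∧ Disjoint A I := by
  simp only [Finset.ext_iff, mem_inter, mem_insert, mem_singleton, disjoint_left]
  grind

theorem hc_b {A I : Finset ℕ} {y : ℕ} (hy : y ∉ I) :
    A ∩ insert y I = I ↔ y ∉ A ∧ I ⊆ A := by
  simp only [Finset.ext_iff, mem_inter, mem_insert, subset_iff]
  grind

theorem hc_c {A : Finset ℕ} {y : ℕ} : A ∩ {y} = {y} ↔ y ∈ A := by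
  rw [inter_eq_right, singleton_subset_iff]

theorem hc_d {A I : Finset ℕ} {x y : ℕ} (hx : x ∉ I) (hy : y ∉ I) (e : x ≠ y) :
    A ∩ insert x (insert y I) = I ↔ x ∉ A ∧ y ∉ A ∧ I ⊆ A := by
  simp only [Finset.ext_iff, mem_inter, mem_insert, subset_iff]
  grind

theorem hc_e {A I : Finset ℕ} {x y : ℕ} (hx : x ∉ I) (hy : y ∉ I) :
    A ∩ insert x (insert y I) = {x, y} ↔ x ∈ A ∧ y ∈ A ∧ Disjoint A I := by
  simp only [Finset.ext_iff, mem_inter, mem_insert, mem_singleton, disjoint_left]
  grind

section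

variable {ι : Type} [Fintype ι] [DecidableEq ι] (X : ι → Finset ℕ) (k : ι → ℕ)

theorem hc_one {y : ℕ} {I : Finset ℕ} (hy : y ∉ I) :
    (H X k y I).card + w X k (insert y I) {y} = w X k {y} {y} + w X k (insert y I) I := by
  refine hc_count _ _ _ _ _ fun A => ?_
  rw [hc_a hy, hc_b hy, hc_c]
  tauto

theorem hc_two {x y : ℕ} {I : Finset ℕ} (hx : x ∉ I) (hy : y ∉ I) (e : x ≠ y) :
    (H X k y (insert x I)).card + w X k (insert x (insert y I)) I =
      (H X k y I).card + w X k (insert x (insert y I)) {x, y} := by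
  refine hc_count _ _ _ _ _ fun A => ?_
  rw [hc_d hx hy e, hc_e hx hy, disjoint_insert_right, insert_subset_iff]
  tauto

end

theorem p_HC (h : S_W) : S_HC := by
  intro ι _ _ X k t y I o hy hI hyI hk
  have hyU : y ∈ univ.biUnion X := mem_biUnion.2 ⟨t, mem_univ _, hy⟩
  have d1 : ∀ u, (({y} : Finset ℕ) ∩ X u).card = dl t u := fun u => by
    unfold dl
    split_ifs with e
    · rw [e, singleton_inter_of_mem hy, card_singleton]
    · rw [singleton_inter_of_notMem fun hu => e (o.eq hu hy), card_empty]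
  have d2 : ∀ u, (insert y I ∩ X u).card = dl t u + (I ∩ X u).card := fun u => by
    rw [← d1, insert_eq, union_inter_distrib_right, card_union_of_disjoint]
    exact Disjoint.mono inter_subset_left inter_subset_left (disjoint_singleton_left.2 hyI)
  have d3 : ∀ u, dl t u ≤ k u := fun u => le_trans (by unfold dl; split_ifs <;> omega) (o.pos u)
  have e0 := hc_one X k hyI
  rw [h ι X k _ _ o (insert_subset hyU hI) (singleton_subset_iff.2 (mem_insert_self _ _)),
    h ι X k _ _ o (singleton_subset_iff.2 hyU) subset_rfl,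
    h ι X k _ _ o (insert_subset hyU hI) (subset_insert _ _)] at e0
  simp only [d1, d2, cf, d3, hk, if_true, ← Nat.sub_sub] at e0
  unfold M.h
  have e1 := congrArg (Nat.cast : ℕ → ℤ) e0
  rw [Nat.cast_add, Nat.cast_add] at e1
  linarith

theorem p_TRI (h : S_WA) : S_TRI := by
  intro ι _ _ X k s y z v x o hy hv hz hx n1 n2 n3 n4 n5 n6
  have e0 : H X k y {z, v} = H X k v {y, z} := by
    refine filter_congr fun A _ => ?_
    simp only [disjoint_insert_right, disjoint_singleton_right, insert_subset_iff,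
      singleton_subset_iff]
    tauto
  refine ⟨e0, ?_⟩
  have hT : (insert x (insert y {z, v}) : Finset ℕ) ⊆ univ.biUnion X :=
    insert_subset (mem_biUnion.2 ⟨s, mem_univ _, hx⟩) (insert_subset hy
      (insert_subset (mem_biUnion.2 ⟨s, mem_univ _, hz⟩) (singleton_subset_iff.2 hv)))
  have e1 := hc_two X k (x := x) (y := y) (I := {z, v}) (by simp [n5.symm, n6.symm])
    (by simp [n1, n2]) n3.symm
  have e2 := hc_two X k (x := x) (y := v) (I := {y, z}) (by simp [n3.symm, n5.symm])
    (by simp [n2.symm, n4.symm]) n6.symm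
  have eT : (insert x (insert v {y, z}) : Finset ℕ) = insert x (insert y {z, v}) := by
    ext a
    simp only [mem_insert, mem_singleton]
    tauto
  rw [eT, ← e0] at e2
  have e3 := h ι X k _ {y, z} s z x o hT (by simp [insert_subset_iff]) hz hx (by simp) (by simp)
    (by simp [n3.symm, n5.symm])
  have e4 := h ι X k _ {z, v} s z x o hT (by simp [insert_subset_iff]) hz hx (by simp) (by simp)
    (by simp [n5.symm, n6.symm])
  rw [pair_comm y z, erase_insert (by simp [n1.symm]), pair_comm z y] at e3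
  rw [erase_insert (by simp [n4])] at e4
  omega

end Pool.Agent.P.MP_4c0b8d_co.M
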