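import Mathlib

/-! Definitions and the statements of the steps for multi-part families without a common point. -/

set_option linter.unusedSectionVars false

namespace Pool.Agent.P.MP_4c0b8d_co.M

open Finset

section defs

variable {ι : Type} [Fintype ι] [DecidableEq ι]

/-- Disjoint parts with room for two disjoint sets. -/
structure Ok (X : ι → Finset ℕ) (k : ι → ℕ) : Prop where
  disj : ∀ u v, u ≠ v → Disjoint (X u) (X v)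
  pos : ∀ u, 1 ≤ k u
  two : ∀ u, 2 * k u ≤ (X u).card

/-- The sets with `k u` points in the part `X u`. -/
def V (X : ι → Finset ℕ) (k : ι → ℕ) : Finset (Finset ℕ) :=
  (univ.biUnion X).powerset.filter fun A => ∀ u, (A ∩ X u).card = k u

/-- The number of sets with trace `E` on `T`. -/
def w (X : ι → Finset ℕ) (k : ι → ℕ) (T E : Finset ℕ) : ℕ :=
  ((V X k).filter fun A => A ∩ T = E).card

/-- The factor of one part. -/
def cf (n k a b : ℕ) : ℕ := if b ≤ k then (n - a).choose (k - b) else 0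

/-- The size of the Hilton-Milner type family with centre in `t` and support `S`. -/
def val (n k : ι → ℕ) (t : ι) (S : Finset ι) : ℕ :=
  (∏ u ∈ (insert t S)ᶜ, (n u).choose (k u)) *
    ((n t - 1).choose (k t - 1) * ∏ u ∈ S, (n u).choose (k u) -
      (n t - k t - 1).choose (k t - 1) * ∏ u ∈ S, (n u - k u).choose (k u) +
      if k t = 1 then n t - 1 else 1)

/-- The largest of these sizes. -/
def Mx (n k : ι → ℕ) : ℕ :=
  (univ.filter fun p : ι × Finset ι => p.1 ∉ p.2 ∧ (2 ≤ k p.1 ∨ 2 ≤ ∑ u ∈ p.2, k u)).sup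
    fun p => val n k p.1 p.2

/-- The box family with centre `y`. -/
def H (X : ι → Finset ℕ) (k : ι → ℕ) (y : ℕ) (I : Finset ℕ) : Finset (Finset ℕ) :=
  (V X k).filter fun A => (y ∈ A ∧ ¬ Disjoint A I) ∨ (y ∉ A ∧ I ⊆ A)

/-- The indicator of the centre part. -/
def dl (t u : ι) : ℕ := if u = t then 1 else 0

/-- The size of a box family. -/
def h (n k : ι → ℕ) (t : ι) (i : ι → ℕ) : ℤ :=
  ((∏ u, (n u - dl t u).choose (k u - dl t u) : ℕ) : ℤ) -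
    ((∏ u, (n u - dl t u - i u).choose (k u - dl t u) : ℕ) : ℤ) +
    ((∏ u, (n u - dl t u - i u).choose (k u - i u) : ℕ) : ℤ)

/-- The profile of the extremal box. -/
def ex (k : ι → ℕ) (t : ι) (S : Finset ι) (u : ι) : ℕ :=
  if u ∈ S ∨ (u = t ∧ k t ≠ 1) then k u else 0

/-- An intersecting family of traces of positive weight in which no point of `C` is common. -/
structure Good (T C : Finset ℕ) (ω : Finset ℕ → ℕ) (G : Finset (Finset ℕ)) : Prop where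
  sub : ∀ E ∈ G, E ⊆ T
  pos : ∀ E ∈ G, 0 < ω E
  int : ∀ E ∈ G, ∀ E' ∈ G, ¬ Disjoint E E'
  non : ∀ x ∈ C, ∃ E ∈ G, x ∉ E

lemma le_Mx {n k : ι → ℕ} {t : ι} {S : Finset ι} (h1 : t ∉ S)
    (h2 : 2 ≤ k t ∨ 2 ≤ ∑ u ∈ S, k u) : val n k t S ≤ Mx n k :=
  le_sup (f := fun p : ι × Finset ι => val n k p.1 p.2) (b := (t, S))
    (mem_filter.2 ⟨mem_univ _, h1, h2⟩)

lemma mem_V {X : ι → Finset ℕ} {k : ι → ℕ} {A : Finset ℕ} :
    A ∈ V X k ↔ A ⊆ univ.biUnion X ∧ ∀ u, (A ∩ X u).card = k u := by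
  simp only [V, mem_filter, mem_powerset]

lemma Ok.eq {X : ι → Finset ℕ} {k : ι → ℕ} (o : Ok X k) {x : ℕ} {u v : ι} (h1 : x ∈ X u)
    (h2 : x ∈ X v) : u = v := by
  by_contra e
  exact disjoint_left.1 (o.disj u v e) h1 h2

lemma le_of_w {X : ι → Finset ℕ} {k : ι → ℕ} {T E : Finset ℕ} (h : 0 < w X k T E) (u : ι) :
    (E ∩ X u).card ≤ k u := by
  obtain ⟨A, hA⟩ := card_pos.1 h
  obtain ⟨h1, rfl⟩ := mem_filter.1 hA
  rw [← (mem_V.1 h1).2 u]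
  exact card_le_card (inter_subset_inter_right inter_subset_left)

lemma w_erase (X : ι → Finset ℕ) (k : ι → ℕ) {T E : Finset ℕ} {z : ℕ} (h1 : z ∈ T)
    (h2 : z ∉ E) : w X k (T.erase z) E = w X k T E + w X k T (insert z E) := by
  unfold w
  rw [← card_union_of_disjoint (disjoint_left.2 fun A a b => h2 (by
    rw [← (mem_filter.1 a).2, (mem_filter.1 b).2]; exact mem_insert_self _ _)), ← filter_or]
  refine congrArg card (filter_congr fun A _ => ?_)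
  simp only [Finset.ext_iff, mem_inter, mem_erase, mem_insert]
  by_cases e : z ∈ A <;> grind

lemma sum_w (X : ι → Finset ℕ) (k : ι → ℕ) (T : Finset ℕ) (G : Finset (Finset ℕ)) :
    ∑ E ∈ G, w X k T E = ((V X k).filter fun A => A ∩ T ∈ G).card :=
  sum_card_fiberwise_eq_card_filter _ _ _

end defs

/-! ### Weights -/

-- deps:
def S_V : Prop := ∀ (ι : Type) [Fintype ι] [DecidableEq ι] (X : ι → Finset ℕ) (k : ι → ℕ),
  (∀ u v, u ≠ v → Disjoint (X u) (X v)) → (V X k).card = ∏ u, (X u).card.choose (k u)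

-- deps: V
def S_W : Prop := ∀ (ι : Type) [Fintype ι] [DecidableEq ι] (X : ι → Finset ℕ) (k : ι → ℕ)
  (T E : Finset ℕ), Ok X k → T ⊆ univ.biUnion X → E ⊆ T →
  w X k T E = ∏ u, cf (X u).card (k u) (T ∩ X u).card (E ∩ X u).card

-- deps: W
def S_POS : Prop := ∀ (ι : Type) [Fintype ι] [DecidableEq ι] (X : ι → Finset ℕ) (k : ι → ℕ)
  (T E : Finset ℕ), Ok X k → T ⊆ univ.biUnion X → E ⊆ T → (∀ u, (E ∩ X u).card ≤ k u) →
  (∀ u, ((T \ E) ∩ X u).card ≤ k u) → 0 < w X k T E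

-- deps: W
def S_WA : Prop := ∀ (ι : Type) [Fintype ι] [DecidableEq ι] (X : ι → Finset ℕ) (k : ι → ℕ)
  (T E : Finset ℕ) (s : ι) (z i : ℕ), Ok X k → T ⊆ univ.biUnion X → E ⊆ T → z ∈ X s → i ∈ X s →
  i ∈ T → z ∈ E → i ∉ E → w X k T E = w X k T (insert i (E.erase z))

-- deps: W
def S_WB : Prop := ∀ (ι : Type) [Fintype ι] [DecidableEq ι] (X : ι → Finset ℕ) (k : ι → ℕ)
  (T E : Finset ℕ) (s t : ι) (z i : ℕ), Ok X k → T ⊆ univ.biUnion X → E ⊆ T → T ∩ X s = {z} →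
  T ∩ X t = {i} → k s * (X t).card ≤ k t * (X s).card → z ∈ E → i ∉ E →
  w X k T E ≤ w X k T (insert i (E.erase z))

-- deps: W
def S_W2 : Prop := ∀ (ι : Type) [Fintype ι] [DecidableEq ι] (X : ι → Finset ℕ) (k : ι → ℕ)
  (T E E' : Finset ℕ) (s : ι) (z : ℕ), Ok X k → T ⊆ univ.biUnion X → z ∈ T → z ∈ X s →
  E ⊆ T.erase z → E' ⊆ T.erase z → Disjoint (E ∩ X s) E' → T.erase z ∩ X s ⊆ E ∪ E' →
  w X k T (insert z E) * w X k T (insert z E') ≤ w X k T E * w X k T E'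

/-! ### One step -/

-- deps:
def S_SH : Prop := ∀ (T C J : Finset ℕ) (z : ℕ) (ω : Finset ℕ → ℕ) (G : Finset (Finset ℕ)),
  J ⊆ T.erase z → Good T C ω G →
  (∀ E ⊆ T, z ∈ E → ∀ i ∈ J, i ∉ E → ω E ≤ ω (insert i (E.erase z))) →
  ∃ G', Good T C ω G' ∧ ∑ E ∈ G, ω E ≤ ∑ E ∈ G', ω E ∧ (∀ E ∈ G, z ∉ E → E ∈ G') ∧
    (∀ E' ∈ G', ∃ E ∈ G, E' \ insert z J = E \ insert z J) ∧
    ((∃ y ∈ C, y ∈ J ∧ ∀ E ∈ G', y ∉ E → z ∈ E) ∨
      ∀ E ∈ G', z ∈ E → ∀ i ∈ J, i ∉ E → insert i (E.erase z) ∈ G')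

-- deps:
def S_PU : Prop := ∀ (T R : Finset ℕ) (z : ℕ) (ω ω' : Finset ℕ → ℕ) (G : Finset (Finset ℕ)),
  R.Nonempty → z ∉ R → Good T ∅ ω G → (∀ E, z ∉ E → ω' E = ω E + ω (insert z E)) →
  (∀ E ⊆ T.erase z, ∀ E' ⊆ T.erase z, Disjoint (E ∩ R) E' → R ⊆ E ∪ E' →
    ω (insert z E) * ω (insert z E') ≤ ω E * ω E') →
  (∀ E ∈ G, ∀ E' ∈ G, Disjoint (E.erase z) (E'.erase z) → R ⊆ E ∪ E') →
  ∃ G', Good (T.erase z) ∅ ω' G' ∧ ∑ E ∈ G, ω E ≤ ∑ E ∈ G', ω' E ∧ (∀ E ∈ G, z ∉ E → E ∈ G') ∧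
    ∀ E' ∈ G', ∃ E ∈ G, E' = E.erase z

-- deps: SH PU
def S_STEP : Prop := ∀ (T C J R : Finset ℕ) (z : ℕ) (ω ω' : Finset ℕ → ℕ)
  (G : Finset (Finset ℕ)), J ⊆ R → R ⊆ T.erase z → R.Nonempty → Good T C ω G →
  (∀ E, z ∉ E → ω' E = ω E + ω (insert z E)) →
  (∀ E ⊆ T, z ∈ E → ∀ i ∈ J, i ∉ E → ω E ≤ ω (insert i (E.erase z))) →
  (∀ E ⊆ T.erase z, ∀ E' ⊆ T.erase z, Disjoint (E ∩ R) E' → R ⊆ E ∪ E' →
    ω (insert z E) * ω (insert z E') ≤ ω E * ω E') →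
  (∀ E ∈ G, ∀ E' ∈ G, Disjoint (E ∩ (R \ J)) E' → R \ J ⊆ E ∪ E') →
  (∃ G', Good T C ω G' ∧ ∑ E ∈ G, ω E ≤ ∑ E ∈ G', ω E ∧ (∀ E ∈ G, z ∉ E → E ∈ G') ∧
    (∀ E' ∈ G', ∃ E ∈ G, E' \ insert z J = E \ insert z J) ∧
    ∃ y ∈ C, y ≠ z ∧ ∀ E ∈ G', y ∉ E → z ∈ E ∧ (y ∉ J → J ⊆ E)) ∨
  ∃ G', Good (T.erase z) (C.erase z) ω' G' ∧ ∑ E ∈ G, ω E ≤ ∑ E ∈ G', ω' E ∧
    ∀ E' ∈ G', ∃ E ∈ G, E' \ insert z J = E \ insert z J

/-! ### Boxes -/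

-- deps: W
def S_HC : Prop := ∀ (ι : Type) [Fintype ι] [DecidableEq ι] (X : ι → Finset ℕ) (k : ι → ℕ)
  (t : ι) (y : ℕ) (I : Finset ℕ), Ok X k → y ∈ X t → I ⊆ univ.biUnion X → y ∉ I →
  (∀ u, (I ∩ X u).card ≤ k u) →
  ((H X k y I).card : ℤ) = h (fun u => (X u).card) k t fun u => (I ∩ X u).card

-- deps: WA
def S_TRI : Prop := ∀ (ι : Type) [Fintype ι] [DecidableEq ι] (X : ι → Finset ℕ) (k : ι → ℕ)
  (s : ι) (y z v x : ℕ), Ok X k → y ∈ univ.biUnion X → v ∈ univ.biUnion X → z ∈ X s → x ∈ X s →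
  y ≠ z → y ≠ v → y ≠ x → z ≠ v → z ≠ x → v ≠ x → H X k y {z, v} = H X k v {y, z} ∧
  2 * (H X k y {z, v}).card ≤ (H X k y {x, z, v}).card + (H X k v {x, y, z}).card

-- deps:
def S_VAL : Prop := ∀ (ι : Type) [Fintype ι] [DecidableEq ι] (n k : ι → ℕ) (t : ι)
  (S : Finset ι), (∀ u, 1 ≤ k u ∧ 2 * k u ≤ n u) → t ∉ S → h n k t (ex k t S) = val n k t S

-- deps:
def S_QC : Prop := ∀ (ι : Type) [Fintype ι] [DecidableEq ι] (n k : ι → ℕ) (t s : ι)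
  (i : ι → ℕ) (j : ℕ), (∀ u, 1 ≤ k u ∧ 2 * k u ≤ n u) → j < k s →
  (h n k t (Function.update i s j) ≤ h n k t (Function.update i s (j + 1)) →
    h n k t (Function.update i s j) ≤ h n k t (Function.update i s (k s))) ∧
  (h n k t (Function.update i s (j + 1)) ≤ h n k t (Function.update i s (k s)) ∨
    h n k t (Function.update i s (j + 1)) ≤ h n k t (Function.update i s j))

-- deps:
def S_D1 : Prop := ∀ (n k W : ℕ), 2 ≤ k → 2 * k ≤ n → (n - k) * (n - k + 1) ≤ k * k * W →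
  (n - 1).choose k + W * (n - k - 1).choose (k - 1) ≤ W * (n - 1).choose (k - 1) + 1

-- deps:
def S_D2 : Prop := ∀ (n k m l a b : ℕ), 2 ≤ k → 2 * k ≤ n → 1 ≤ l → 2 * l ≤ m → k * m ≤ l * n →
  1 ≤ b → b ≤ a → (l = 1 → b < a ∧ m ≤ b + 1) →
  (n - 1).choose (k - 1) * (m.choose l * a) + (n - 1).choose k +
      (m - l - 1).choose (l - 1) * ((n - k).choose k * b) ≤
    (m - 1).choose (l - 1) * (n.choose k * a) + (n - 1).choose (k - 1) * ((m - l).choose l * b) +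
      if l = 1 then m - 1 else 1

-- deps: D1 D2
def S_DT : Prop := ∀ (ι : Type) [Fintype ι] [DecidableEq ι] (n k : ι → ℕ) (t : ι)
  (S : Finset ι), (∀ u, 1 ≤ k u ∧ 2 * k u ≤ n u) → t ∉ S → 2 ≤ k t → 2 ≤ ∑ u ∈ S, k u →
  h n k t (fun u => if u ∈ S then k u else 0) ≤ Mx n k

-- deps: VAL QC DT
def S_R3 : Prop := ∀ (ι : Type) [Fintype ι] [DecidableEq ι] (n k : ι → ℕ) (t : ι)
  (i : ι → ℕ), (∀ u, 1 ≤ k u ∧ 2 * k u ≤ n u) → (∀ u, i u ≤ k u) → (k t = 1 → i t = 0) →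
  ((∃ v, i v = k v ∧ 2 ≤ k v) ∨ ((∀ u, i u = 0 ∨ i u = k u) ∧ 2 ≤ ∑ u, i u)) →
  h n k t i ≤ Mx n k

-- deps: HC TRI QC R3
def S_BOX : Prop := ∀ (ι : Type) [Fintype ι] [DecidableEq ι] (X : ι → Finset ℕ) (k : ι → ℕ)
  (t : ι) (y : ℕ) (I : Finset ℕ), Ok X k → y ∈ X t → I ⊆ univ.biUnion X → y ∉ I →
  (∀ u, (I ∩ X u).card ≤ k u) → 2 ≤ I.card → (k t = 1 → Disjoint I (X t)) →
  (H X k y I).card ≤ Mx (fun u => (X u).card) k

-- deps: POS HC VAL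
def S_LOW : Prop := ∀ (ι : Type) [Fintype ι] [DecidableEq ι] (X : ι → Finset ℕ) (k : ι → ℕ)
  (t : ι) (S : Finset ι), Ok X k → t ∉ S → (2 ≤ k t ∨ 2 ≤ ∑ u ∈ S, k u) →
  ∃ F ⊆ V X k, (∀ A ∈ F, ∀ B ∈ F, ¬ Disjoint A B) ∧ (∀ x, ∃ A ∈ F, x ∉ A) ∧
    F.card = val (fun u => (X u).card) k t S

/-! ### The two phases -/

-- deps: WA W2 STEP BOX
def S_P2 : Prop := ∀ (ι : Type) [Fintype ι] [DecidableEq ι] (X : ι → Finset ℕ) (k : ι → ℕ)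
  (T : Finset ℕ) (G : Finset (Finset ℕ)) (y z : ℕ), Ok X k → T ⊆ univ.biUnion X → y ∈ T → z ∈ T →
  y ≠ z → (∀ u, y ∈ X u → z ∈ X u → k u ≠ 1) → Good T {y, z} (w X k T) G →
  (∀ E ∈ G, y ∈ E ∨ z ∈ E) → ∑ E ∈ G, w X k T E ≤ Mx (fun u => (X u).card) k

-- deps: V W
def S_SG : Prop := ∀ (ι : Type) [Fintype ι] [DecidableEq ι] (X : ι → Finset ℕ) (k : ι → ℕ)
  (T : Finset ℕ) (G : Finset (Finset ℕ)), Ok X k → T ⊆ univ.biUnion X → Good T T (w X k T) G →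
  (∀ s, T ∩ X s = ∅ ∨ (k s = 1 ∧ (T ∩ X s).card = 2 ∧ ∀ E ∈ G, ¬ Disjoint E (X s))) →
  ∑ E ∈ G, w X k T E ≤ Mx (fun u => (X u).card) k

-- deps: WA WB W2 STEP P2 SG
def S_P1 : Prop := ∀ (ι : Type) [Fintype ι] [DecidableEq ι] (X : ι → Finset ℕ) (k : ι → ℕ)
  (T : Finset ℕ) (G : Finset (Finset ℕ)), Ok X k → T ⊆ univ.biUnion X → Good T T (w X k T) G →
  ∑ E ∈ G, w X k T E ≤ Mx (fun u => (X u).card) k

end Pool.Agent.P.MP_4c0b8d_co.M
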