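import Pool.Agent.P.MP_4c0b8d_co.M.Iface

/-! The first phase. -/

namespace Pool.Agent.P.MP_4c0b8d_co.M

open Finset

theorem p1_two {S : Finset ℕ} (h : S.card = 2) {a b x : ℕ} (ha : a ∈ S) (hb : b ∈ S) (hx : x ∈ S)
    (hab : a ≠ b) : x = a ∨ x = b := by
  have e : ({a, b} : Finset ℕ) = S := eq_of_subset_of_card_le
    (insert_subset ha (singleton_subset_iff.2 hb)) (by rw [h, card_pair hab])
  rw [← e] at hx
  simpa using hx

theorem p_P1 (h1 : S_WA) (h2 : S_WB) (h3 : S_W2) (h4 : S_STEP) (h5 : S_P2) (h6 : S_SG) : S_P1 := by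
  intro ι _ _ X k T G o
  induction T using Finset.strongInduction generalizing G with
  | H T ih =>
  intro hT g
  have ih' : ∀ z ∈ T, ∀ G', Good (T.erase z) (T.erase z) (w X k (T.erase z)) G' →
      ∑ E ∈ G', w X k (T.erase z) E ≤ Mx (fun u => (X u).card) k := fun z hz G' g' =>
    ih _ (erase_ssubset hz) G' ((erase_subset _ _).trans hT) g'
  have h0 : ∀ G', Good T T (w X k T) G' → ∀ x ∈ T, (∀ E ∈ G', x ∉ E) →
      ∑ E ∈ G', w X k T E ≤ Mx (fun u => (X u).card) k := fun G' g' x hx hn => by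
    have hw : ∀ E ∈ G', w X k T E ≤ w X k (T.erase x) E := fun E hE => by
      rw [w_erase X k hx (hn E hE)]
      exact Nat.le_add_right _ _
    exact (sum_le_sum hw).trans (ih' x hx G' ⟨fun E hE => subset_erase.2 ⟨g'.sub E hE, hn E hE⟩,
      fun E hE => (g'.pos E hE).trans_le (hw E hE), g'.int,
      fun y hy => g'.non y (mem_of_mem_erase hy)⟩)
  have hP : ∀ G', Good T T (w X k T) G' → ∀ y ∈ T, ∀ z ∈ T, y ≠ z →
      (∀ u, y ∈ X u → z ∈ X u → k u ≠ 1) → (∀ E ∈ G', y ∉ E → z ∈ E) →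
      ∑ E ∈ G', w X k T E ≤ Mx (fun u => (X u).card) k := fun G' g' y hy z hz hne hu hc =>
    h5 ι X k T G' y z o hT hy hz hne hu ⟨g'.sub, g'.pos, g'.int, fun x hx =>
      g'.non x (insert_subset hy (singleton_subset_iff.2 hz) hx)⟩
      fun E hE => or_iff_not_imp_left.2 (hc E hE)
  by_cases c1 : ∃ s, 2 ≤ (T ∩ X s).card ∧
      ¬ (k s = 1 ∧ (T ∩ X s).card = 2 ∧ ∀ E ∈ G, ¬ Disjoint E (X s))
  · obtain ⟨s, hs, hn⟩ := c1
    obtain ⟨z, hz⟩ := card_pos.1 (lt_of_lt_of_le two_pos hs)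
    obtain ⟨hzT, hzs⟩ := mem_inter.1 hz
    rcases h4 T T ((T ∩ X s).erase z) ((T ∩ X s).erase z) z (w X k T) (w X k (T.erase z)) G
      (Subset.refl _) (erase_subset_erase _ inter_subset_left)
      (card_pos.1 (by rw [card_erase_of_mem hz]; omega)) g (fun E hE => w_erase X k hzT hE)
      (fun E hE hzE i hi hiE => (h1 ι X k T E s z i o hT hE hzs
        (mem_inter.1 (mem_of_mem_erase hi)).2 (mem_inter.1 (mem_of_mem_erase hi)).1 hzE hiE).le)
      (fun E hE E' hE' hd hs' => h3 ι X k T E E' s z o hT hzT hzs hE hE'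
        (hd.mono_left fun x hx => by
          have := mem_erase.1 (hE (mem_inter.1 hx).1)
          exact mem_inter.2 ⟨(mem_inter.1 hx).1,
            mem_erase.2 ⟨this.1, mem_inter.2 ⟨this.2, (mem_inter.1 hx).2⟩⟩⟩)
        (by rwa [erase_inter]))
      (fun E _ E' _ _ => by rw [sdiff_self]; exact empty_subset _) with
      ⟨G', g', s1, s2, -, y, hy, hyz, s3⟩ | ⟨G', g', s1, -⟩
    · refine s1.trans ?_
      by_cases c : y ∈ X s ∧ k s = 1
      · by_cases c' : (T ∩ X s).card = 2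
        · obtain ⟨E, hE, hd⟩ : ∃ E ∈ G, Disjoint E (X s) := by
            by_contra hc
            exact hn ⟨c.2, c', fun E hE hd => hc ⟨E, hE, hd⟩⟩
          have hzE : z ∉ E := fun h => disjoint_left.1 hd h hzs
          exact absurd (s3 E (s2 E hE hzE) fun h => disjoint_left.1 hd h c.1).1 hzE
        · obtain ⟨x, hx, hx'⟩ := exists_mem_notMem_of_card_lt_card
            (s := ({y, z} : Finset ℕ)) (t := T ∩ X s) (by rw [card_pair hyz]; omega)
          obtain ⟨hxT, hxs⟩ := mem_inter.1 hx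
          refine h0 G' g' x hxT fun E hE hxE => hx' ?_
          have hc := card_le_one.1 ((le_of_w (g'.pos E hE) s).trans c.2.le)
          by_cases hyE : y ∈ E
          · rw [hc x (mem_inter.2 ⟨hxE, hxs⟩) y (mem_inter.2 ⟨hyE, c.1⟩)]
            exact mem_insert_self _ _
          · rw [hc x (mem_inter.2 ⟨hxE, hxs⟩) z (mem_inter.2 ⟨(s3 E hE hyE).1, hzs⟩)]
            exact mem_insert_of_mem (mem_singleton_self _)
      · refine hP G' g' y hy z hzT hyz (fun u a b e => c ?_) fun E hE a => (s3 E hE a).1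
        obtain rfl := o.eq b hzs
        exact ⟨a, e⟩
    · exact s1.trans (ih' z hzT G' g')
  have hsg : ∀ s, 2 ≤ (T ∩ X s).card →
      k s = 1 ∧ (T ∩ X s).card = 2 ∧ ∀ E ∈ G, ¬ Disjoint E (X s) := fun s hs => by
    by_contra hc
    exact c1 ⟨s, hs, hc⟩
  by_cases c2 : ∃ s, (T ∩ X s).card = 1
  · obtain ⟨s, hs, hm⟩ := exists_min_image (univ.filter fun s => (T ∩ X s).card = 1)
      (fun s => (k s : ℚ) / (X s).card) (by
        obtain ⟨s, hs⟩ := c2
        exact ⟨s, mem_filter.2 ⟨mem_univ _, hs⟩⟩)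
    have hs1 := (mem_filter.1 hs).2
    obtain ⟨z, ez⟩ := card_eq_one.1 hs1
    obtain ⟨hzT, hzs⟩ := mem_inter.1 (ez ▸ mem_singleton_self z : z ∈ T ∩ X s)
    have hn : ∀ u, (0 : ℚ) < (X u).card := fun u => by
      have := o.pos u
      have := o.two u
      exact Nat.cast_pos.2 (by omega)
    have hR : (T.erase z).Nonempty := by
      obtain ⟨E, hE, hzE⟩ := g.non z hzT
      obtain ⟨x, hx, -⟩ := not_disjoint_iff.1 (g.int E hE E hE)
      exact ⟨x, mem_erase.2 ⟨fun e => hzE (e ▸ hx), g.sub E hE hx⟩⟩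
    rcases h4 T T ((T.erase z).filter fun x => ∃ u, x ∈ X u ∧ (T ∩ X u).card = 1) (T.erase z) z
      (w X k T) (w X k (T.erase z)) G (filter_subset _ _) (Subset.refl _) hR g
      (fun E hE => w_erase X k hzT hE)
      (fun E hE hzE i hi hiE => by
        obtain ⟨hi1, t, hi2, hi3⟩ := mem_filter.1 hi
        obtain ⟨i', ei⟩ := card_eq_one.1 hi3
        obtain rfl : i = i' :=
          mem_singleton.1 (ei ▸ mem_inter.2 ⟨mem_of_mem_erase hi1, hi2⟩ : i ∈ ({i'} : Finset ℕ))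
        have := hm t (mem_filter.2 ⟨mem_univ _, hi3⟩)
        rw [div_le_div_iff₀ (hn s) (hn t)] at this
        exact h2 ι X k T E s t z i o hT hE ez ei (by exact_mod_cast this) hzE hiE)
      (fun E hE E' hE' hd hs' => h3 ι X k T E E' s z o hT hzT hzs hE hE'
        (hd.mono_left fun x hx => mem_inter.2 ⟨(mem_inter.1 hx).1, hE (mem_inter.1 hx).1⟩)
        (inter_subset_left.trans hs'))
      (fun E hE E' hE' hd x hx => by
        obtain ⟨hx1, hx2⟩ := mem_sdiff.1 hx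
        have hxT := mem_of_mem_erase hx1
        obtain ⟨u, -, hu⟩ := mem_biUnion.1 (hT hxT)
        have hc : (T ∩ X u).card ≠ 1 := fun e => hx2 (mem_filter.2 ⟨hx1, u, hu, e⟩)
        have hp : 0 < (T ∩ X u).card := card_pos.2 ⟨x, mem_inter.2 ⟨hxT, hu⟩⟩
        obtain ⟨-, k2, k3⟩ := hsg u (by omega)
        obtain ⟨a, a1, a2⟩ := not_disjoint_iff.1 (k3 E hE)
        obtain ⟨b, b1, b2⟩ := not_disjoint_iff.1 (k3 E' hE')
        have haz : a ≠ z := by
          rintro rfl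
          exact hc (o.eq hzs a2 ▸ hs1)
        have hab : a ≠ b := by
          rintro rfl
          refine disjoint_left.1 hd (mem_inter.2 ⟨a1, mem_sdiff.2
            ⟨mem_erase.2 ⟨haz, g.sub E hE a1⟩, fun h => ?_⟩⟩) b1
          obtain ⟨-, v, v1, v2⟩ := mem_filter.1 h
          exact hc (o.eq v1 a2 ▸ v2)
        rcases p1_two k2 (mem_inter.2 ⟨g.sub E hE a1, a2⟩) (mem_inter.2 ⟨g.sub E' hE' b1, b2⟩)
          (mem_inter.2 ⟨hxT, hu⟩) hab with rfl | rfl
        · exact mem_union_left _ a1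
        · exact mem_union_right _ b1) with
      ⟨G', g', s1, -, -, y, hy, hyz, s3⟩ | ⟨G', g', s1, -⟩
    · refine s1.trans (hP G' g' y hy z hzT hyz (fun u a b _ => hyz ?_) fun E hE a => (s3 E hE a).1)
      obtain rfl := o.eq b hzs
      exact mem_singleton.1 (ez ▸ mem_inter.2 ⟨hy, a⟩)
    · exact s1.trans (ih' z hzT G' g')
  refine h6 ι X k T G o hT g fun s => or_iff_not_imp_left.2 fun e => hsg s ?_
  have k1 : (T ∩ X s).card ≠ 0 := fun h => e (card_eq_zero.1 h)
  have k2 : (T ∩ X s).card ≠ 1 := fun h => c2 ⟨s, h⟩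
  omega

end Pool.Agent.P.MP_4c0b8d_co.M
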