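import Pool.Agent.P.MP_4c0b8d_co.M.Iface

/-! The second phase: families covered by two points. -/

namespace Pool.Agent.P.MP_4c0b8d_co.M

open Finset

lemma p2_box (h4 : S_BOX) {ι : Type} [Fintype ι] [DecidableEq ι] {X : ι → Finset ℕ} {k : ι → ℕ}
    {T : Finset ℕ} {G : Finset (Finset ℕ)} {y z : ℕ} (o : Ok X k) (hT : T ⊆ univ.biUnion X)
    (hy : y ∈ T) (hz : z ∈ T) (hne : y ≠ z) (hk : ∀ u, y ∈ X u → z ∈ X u → k u ≠ 1)
    (g : Good T {y, z} (w X k T) G) (hc : ∀ E ∈ G, y ∈ E ∨ z ∈ E)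
    (hm : ∀ E ∈ G, z ∉ E → ∃ x ∈ E, x ≠ y ∧ ∀ E' ∈ G, y ∉ E' → x ∈ E') :
    ∑ E ∈ G, w X k T E ≤ Mx (fun u => (X u).card) k := by
  obtain ⟨t, -, ht⟩ := mem_biUnion.1 (hT hy)
  obtain ⟨I, hI⟩ : ∃ I : Finset ℕ, ∀ x, x ∈ I ↔
      x ∈ T ∧ x ≠ y ∧ (∀ E' ∈ G, y ∉ E' → x ∈ E') ∧ ¬ (k t = 1 ∧ x ∈ X t) :=
    ⟨T.filter _, fun _ => mem_filter⟩
  have hzI : z ∈ I := (hI z).2 ⟨hz, hne.symm, fun E hE h => (hc E hE).resolve_left h,
    fun h => hk t ht h.2 h.1⟩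
  have key : ∀ E ∈ G, y ∈ E → ∃ x ∈ E, x ∈ I := fun E hE hyE => by
    by_cases hzE : z ∈ E
    · exact ⟨z, hzE, hzI⟩
    obtain ⟨x, hx, h1, h2⟩ := hm E hE hzE
    refine ⟨x, hx, (hI x).2 ⟨g.sub E hE hx, h1, h2, fun h => h1 ?_⟩⟩
    exact card_le_one.1 ((le_of_w (g.pos E hE) t).trans h.1.le) x (mem_inter.2 ⟨hx, h.2⟩) y
      (mem_inter.2 ⟨hyE, ht⟩)
  have sub : ∀ E ∈ G, y ∉ E → I ⊆ E := fun E hE h x hx => ((hI x).1 hx).2.2.1 E hE h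
  rw [sum_w]
  refine (card_le_card fun A hA => ?_).trans (h4 ι X k t y I o ht
    (fun x hx => hT ((hI x).1 hx).1) (fun h => ((hI y).1 h).2.1 rfl) (fun u => ?_) ?_
    fun h => disjoint_left.2 fun x hx hx' => ((hI x).1 hx).2.2.2 ⟨h, hx'⟩)
  · obtain ⟨h1, h2⟩ := mem_filter.1 hA
    refine mem_filter.2 ⟨h1, ?_⟩
    by_cases hyA : y ∈ A
    · obtain ⟨x, hx, hx'⟩ := key _ h2 (mem_inter.2 ⟨hyA, hy⟩)
      exact Or.inl ⟨hyA, not_disjoint_iff.2 ⟨x, (mem_inter.1 hx).1, hx'⟩⟩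
    · exact Or.inr ⟨hyA, (sub _ h2 fun h => hyA (mem_inter.1 h).1).trans inter_subset_left⟩
  · obtain ⟨E, hE, h⟩ := g.non y (by simp)
    exact (card_le_card (inter_subset_inter_right (sub E hE h))).trans (le_of_w (g.pos E hE) u)
  · obtain ⟨E, hE, h⟩ := g.non z (by simp)
    obtain ⟨x, hx, hx'⟩ := key E hE ((hc E hE).resolve_right h)
    exact one_lt_card.2 ⟨x, hx', z, hzI, fun e => h (e ▸ hx)⟩

/-- The points that are still free. -/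
def p2_U (T : Finset ℕ) (G : Finset (Finset ℕ)) (y z : ℕ) : Finset ℕ :=
  T.filter fun x => x ≠ y ∧ x ≠ z ∧ (∃ E ∈ G, z ∉ E ∧ x ∉ E) ∧ ∃ E ∈ G, y ∉ E ∧ x ∉ E

theorem p_P2 (h1 : S_WA) (h2 : S_W2) (h3 : S_STEP) (h4 : S_BOX) : S_P2 := by
  intro ι _ _ X k T G y z o hT hy hz hne hk g hc
  induction hn : T.card using Nat.strong_induction_on generalizing T G with
  | _ n ih =>
  induction hm : (p2_U T G y z).card using Nat.strong_induction_on generalizing G with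
  | _ m ih' =>
  rcases (p2_U T G y z).eq_empty_or_nonempty with h0 | ⟨x, hx⟩
  · by_cases hm : ∀ E ∈ G, z ∉ E → ∃ x ∈ E, x ≠ y ∧ ∀ E' ∈ G, y ∉ E' → x ∈ E'
    · exact p2_box h4 o hT hy hz hne hk g hc hm
    refine p2_box h4 o hT hz hy hne.symm (fun u a b => hk u b a) (pair_comm y z ▸ g)
      (fun E hE => (hc E hE).symm) fun E hE hyE => ?_
    push Not at hm
    obtain ⟨E', hE', hzE, hm⟩ := hm
    obtain ⟨x, a, b⟩ := not_disjoint_iff.1 (g.int E hE E' hE')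
    have hxy : x ≠ y := fun e => hyE (e ▸ a)
    have hxz : x ≠ z := fun e => hzE (e ▸ b)
    refine ⟨x, a, hxz, fun F hF hzF => by_contra fun hxF => notMem_empty x ?_⟩
    rw [← h0]
    exact mem_filter.2 ⟨g.sub E hE a, hxy, hxz, ⟨F, hF, hzF, hxF⟩, hm x b hxy⟩
  obtain ⟨hxT, hxy, hxz, -⟩ := mem_filter.1 hx
  obtain ⟨s, -, hs⟩ := mem_biUnion.1 (hT hxT)
  obtain ⟨J, hJ⟩ : ∃ J : Finset ℕ, ∀ i, i ∈ J ↔ i ∈ T ∩ X s ∧ i ≠ x ∧ i ≠ y ∧ i ≠ z :=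
    ⟨(T ∩ X s).filter _, fun _ => mem_filter⟩
  simp only [mem_inter] at hJ
  have tr : ∀ {E E' : Finset ℕ} {i : ℕ}, E' \ insert x J = E \ insert x J → i ≠ x → i ∉ J →
      (i ∈ E' ↔ i ∈ E) := fun {E E' i} e a b => by
    simpa [a, b] using Finset.ext_iff.1 e i
  have hyJ : y ∉ J := fun h => ((hJ y).1 h).2.2.1 rfl
  have hzJ : z ∉ J := fun h => ((hJ z).1 h).2.2.2 rfl
  have cov : ∀ G' : Finset (Finset ℕ), (∀ E' ∈ G', ∃ E ∈ G, E' \ insert x J = E \ insert x J) →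
      ∀ E ∈ G', y ∈ E ∨ z ∈ E := fun G' h E' hE' => by
    obtain ⟨E, hE, e⟩ := h E' hE'
    rw [tr e hxy.symm hyJ, tr e hxz.symm hzJ]
    exact hc E hE
  have hR : T.erase x ∩ X s ⊆ J ∪ {y, z} := fun i hi => by
    simp only [mem_inter, mem_erase, mem_union, mem_insert, mem_singleton, hJ] at hi ⊢
    tauto
  rcases h3 T {y, z} J (J ∪ {y, z}) x (w X k T) (w X k (T.erase x)) G subset_union_left
    (fun i hi => by
      simp only [mem_erase, mem_union, mem_insert, mem_singleton, hJ] at hi ⊢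
      rcases hi with h | rfl | rfl
      exacts [⟨h.2.1, h.1.1⟩, ⟨hxy.symm, hy⟩, ⟨hxz.symm, hz⟩])
    ⟨y, by simp⟩ g (fun E hE => w_erase X k hxT hE)
    (fun E hE hxE i hi hiE => (h1 ι X k T E s x i o hT hE hs ((hJ i).1 hi).1.2 ((hJ i).1 hi).1.1
      hxE hiE).le)
    (fun E hE E' hE' a b => h2 ι X k T E E' s x o hT hxT hs hE hE'
      (a.mono_left fun i hi => mem_inter.2 ⟨(mem_inter.1 hi).1,
        hR (inter_subset_inter_right hE hi)⟩) (hR.trans b))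
    (fun E hE E' hE' a i hi => by
      have a1 := fun h => disjoint_left.1 a (show y ∈ _ from h)
      have a2 := fun h => disjoint_left.1 a (show z ∈ _ from h)
      have c1 := hc E hE
      have c2 := hc E' hE'
      simp only [mem_inter, mem_sdiff, mem_union, mem_insert, mem_singleton] at a1 a2 hi ⊢
      rcases hi with ⟨h | rfl | rfl, h'⟩ <;> tauto) with
    ⟨G', g', le, -, e, v, hv, -, hv'⟩ | ⟨G', g', le, e⟩
  · refine le.trans (ih' _ ?_ G' g' (cov G' e) rfl)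
    rw [← hm]
    refine lt_of_le_of_lt (card_le_card fun i hi => ?_) (card_erase_lt_of_mem hx)
    obtain ⟨a, b, c, ⟨E₁, m₁, n₁, l₁⟩, E₂, m₂, n₂, l₂⟩ := mem_filter.1 hi
    obtain ⟨p, q⟩ : i ≠ x ∧ i ∉ J := by
      rcases mem_insert.1 hv with rfl | hv
      · exact ⟨fun e => l₂ (e ▸ (hv' E₂ m₂ n₂).1), fun e => l₂ ((hv' E₂ m₂ n₂).2 hyJ e)⟩
      · obtain rfl := mem_singleton.1 hv
        exact ⟨fun e => l₁ (e ▸ (hv' E₁ m₁ n₁).1), fun e => l₁ ((hv' E₁ m₁ n₁).2 hzJ e)⟩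
    obtain ⟨F₁, f₁, e₁⟩ := e E₁ m₁
    obtain ⟨F₂, f₂, e₂⟩ := e E₂ m₂
    exact mem_erase.2 ⟨p, mem_filter.2 ⟨a, b, c,
      ⟨F₁, f₁, mt (tr e₁ hxz.symm hzJ).2 n₁, mt (tr e₁ p q).2 l₁⟩,
      F₂, f₂, mt (tr e₂ hxy.symm hyJ).2 n₂, mt (tr e₂ p q).2 l₂⟩⟩
  · rw [erase_eq_of_notMem (s := {y, z}) (by simp [hxy, hxz])] at g'
    exact le.trans (ih _ (hn ▸ card_erase_lt_of_mem hxT) (T.erase x) G'
      ((erase_subset _ _).trans hT) (mem_erase.2 ⟨hxy.symm, hy⟩) (mem_erase.2 ⟨hxz.symm, hz⟩) g'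
      (cov G' e) rfl)

end Pool.Agent.P.MP_4c0b8d_co.M
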