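import Pool.Agent.P.MP_4c0b8d_co.M.Iface

/-! The pull-down step. -/

namespace Pool.Agent.P.MP_4c0b8d_co.M

open Finset

/-- One set of each complementary pair can be kept. -/
lemma pu_keep (R : Finset ℕ) (hR : R.Nonempty) (a b : Finset ℕ → ℕ)
    (hab : ∀ S ⊆ R, b S * b (R \ S) ≤ a S * a (R \ S)) :
    ∃ K : Finset (Finset ℕ), (∀ S ⊆ R, (S ∈ K ↔ R \ S ∉ K)) ∧
      ∀ S ⊆ R, S ∈ K → b (R \ S) ≤ a S := by
  classical
  obtain ⟨r, hr⟩ := hR
  refine ⟨R.powerset.filter fun S =>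
    (r ∈ S ∧ b (R \ S) ≤ a S) ∨ (r ∉ S ∧ ¬ b S ≤ a (R \ S)), fun S hS => ?_, fun S hS h => ?_⟩
  · have e : R \ (R \ S) = S := Finset.sdiff_sdiff_eq_self hS
    simp only [mem_filter, mem_powerset, hS, sdiff_subset, true_and, e, mem_sdiff, hr]
    by_cases h : r ∈ S <;> simp [h]
  · rcases (mem_filter.1 h).2 with h | h
    · exact h.2
    · have h1 := hab S hS
      have h2 := not_le.1 h.2
      by_contra h3
      have h4 := not_le.1 h3
      nlinarith

lemma pu_fib (R : Finset ℕ) (N K : Finset (Finset ℕ)) (f : Finset ℕ → ℕ) :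
    ∑ E ∈ N.filter (fun E => E ∩ R ∈ K), f E =
      ∑ S ∈ R.powerset.filter (· ∈ K), ∑ E ∈ N.filter (fun E => E ∩ R = S), f E := by
  rw [← sum_fiberwise_of_maps_to (s := N.filter fun E => E ∩ R ∈ K)
    (t := R.powerset.filter (· ∈ K)) (g := fun E => E ∩ R)
    (fun E hE => mem_filter.2 ⟨mem_powerset.2 inter_subset_right, (mem_filter.1 hE).2⟩)]
  refine sum_congr rfl fun S hS => sum_congr ?_ fun _ _ => rfl
  ext E
  simp only [mem_filter]
  exact ⟨fun h => ⟨h.1.1, h.2⟩, fun h => ⟨⟨h.1, h.2 ▸ (mem_filter.1 hS).2⟩, h.2⟩⟩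

lemma pu_sel (R : Finset ℕ) (hR : R.Nonempty) (N : Finset (Finset ℕ)) (f g : Finset ℕ → ℕ)
    (hfg : ∀ E ∈ N, ∀ E' ∈ N, Disjoint (E ∩ R) E' → R ⊆ E ∪ E' → g E * g E' ≤ f E * f E') :
    ∃ K : Finset (Finset ℕ), (∀ S ⊆ R, (S ∈ K ↔ R \ S ∉ K)) ∧
      ∑ E ∈ N, g E ≤ ∑ E ∈ N.filter (fun E => E ∩ R ∈ K), (f E + g E) := by
  classical
  obtain ⟨K, h1, h2⟩ := pu_keep R hR (fun S => ∑ E ∈ N.filter (fun E => E ∩ R = S), f E)
    (fun S => ∑ E ∈ N.filter (fun E => E ∩ R = S), g E) (fun S hS => by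
      rw [sum_mul_sum, sum_mul_sum]
      refine sum_le_sum fun E hE => sum_le_sum fun E' hE' => ?_
      obtain ⟨a1, a2⟩ := mem_filter.1 hE
      obtain ⟨b1, b2⟩ := mem_filter.1 hE'
      refine hfg E a1 E' b1 (disjoint_left.2 fun x hx hx' => ?_) fun x hx => ?_
      · have : x ∈ R \ S := b2 ▸ mem_inter.2 ⟨hx', (mem_inter.1 hx).2⟩
        exact (mem_sdiff.1 this).2 (a2 ▸ hx)
      · by_cases e : x ∈ S
        · exact mem_union_left _ (mem_inter.1 (a2 ▸ e : x ∈ E ∩ R)).1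
        · exact mem_union_right _ (mem_inter.1 (b2 ▸ mem_sdiff.2 ⟨hx, e⟩ : x ∈ E' ∩ R)).1)
  refine ⟨K, h1, ?_⟩
  rw [sum_add_distrib, ← sum_filter_add_sum_filter_not N (fun E => E ∩ R ∈ K) g, add_comm]
  refine Nat.add_le_add_right ?_ _
  have e : N.filter (fun E => ¬ E ∩ R ∈ K) =
      N.filter (fun E => E ∩ R ∈ R.powerset.filter (· ∉ K)) :=
    filter_congr fun E _ => by simp
  rw [e, pu_fib, pu_fib]
  refine le_trans (le_of_eq ?_) (sum_le_sum fun S hS =>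
    h2 S (mem_powerset.1 (mem_filter.1 hS).1) (mem_filter.1 hS).2)
  symm
  refine sum_nbij' (fun S => R \ S) (fun S => R \ S) (fun S hS => ?_) (fun S hS => ?_)
    (fun S hS => ?_) (fun S hS => ?_) fun _ _ => rfl
  · obtain ⟨a1, a2⟩ := mem_filter.1 hS
    exact mem_filter.2 ⟨mem_powerset.2 sdiff_subset, mem_filter.2
      ⟨mem_powerset.2 sdiff_subset, (h1 S (mem_powerset.1 a1)).1 a2⟩⟩
  · obtain ⟨a1, a2⟩ := mem_filter.1 hS
    refine mem_filter.2 ⟨mem_powerset.2 sdiff_subset, ?_⟩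
    by_contra h
    exact (mem_filter.1 a2).2 ((h1 S (mem_powerset.1 a1)).2 h)
  · exact Finset.sdiff_sdiff_eq_self (mem_powerset.1 (mem_filter.1 hS).1)
  · exact Finset.sdiff_sdiff_eq_self (mem_powerset.1 (mem_filter.1 hS).1)

theorem p_PU : S_PU := by
  intro T R z ω ω' G hR hz hG hω hm hd
  classical
  set G0 := G.filter (fun E => z ∉ E) with hG0
  set I := (G.filter (fun E => z ∈ E)).image (fun E => E.erase z) with hI
  have mI : ∀ E ∈ I \ G0, ∃ F ∈ G, z ∈ F ∧ E = F.erase z := fun E hE => by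
    obtain ⟨F, a, b⟩ := mem_image.1 (mem_sdiff.1 hE).1
    exact ⟨F, (mem_filter.1 a).1, (mem_filter.1 a).2, b.symm⟩
  have sT : ∀ E ∈ I \ G0, E ⊆ T.erase z := fun E hE => by
    obtain ⟨F, a, -, rfl⟩ := mI E hE
    exact erase_subset_erase z (hG.sub F a)
  obtain ⟨K, h1, h2⟩ := pu_sel R hR (I \ G0) ω (fun E => ω (insert z E))
    fun E hE E' hE' => hm E (sT E hE) E' (sT E' hE')
  have mem : ∀ E ∈ G0 ∪ (I \ G0).filter (fun E => E ∩ R ∈ K), (E ∈ G ∧ z ∉ E) ∨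
      ∃ F ∈ G, z ∈ F ∧ E = F.erase z ∧ E ∩ R ∈ K := fun E hE => by
    rcases mem_union.1 hE with h | h
    · exact Or.inl (mem_filter.1 h)
    · obtain ⟨F, a, b, c⟩ := mI E (mem_filter.1 h).1
      exact Or.inr ⟨F, a, b, c, (mem_filter.1 h).2⟩
  have mix : ∀ E ∈ G, z ∉ E → ∀ F ∈ G, ¬ Disjoint E (F.erase z) := fun E a b F c h =>
    hG.int E a F c (disjoint_left.2 fun x hx hx' =>
      disjoint_left.1 h hx (mem_erase.2 ⟨fun e => b (e ▸ hx), hx'⟩))
  refine ⟨G0 ∪ (I \ G0).filter (fun E => E ∩ R ∈ K), ⟨fun E hE => ?_, fun E hE => ?_,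
    fun E hE E' hE' => ?_, fun x hx => absurd hx (notMem_empty x)⟩, ?_,
    fun E a b => mem_union_left _ (mem_filter.2 ⟨a, b⟩), fun E hE => ?_⟩
  · rcases mem E hE with ⟨a, b⟩ | ⟨F, a, -, rfl, -⟩
    · exact subset_erase.2 ⟨hG.sub E a, b⟩
    · exact erase_subset_erase z (hG.sub F a)
  · rcases mem E hE with ⟨a, b⟩ | ⟨F, a, b, rfl, -⟩
    · rw [hω E b]
      exact Nat.add_pos_left (hG.pos E a) _
    · rw [hω _ (notMem_erase z F), insert_erase b]
      exact Nat.add_pos_right _ (hG.pos F a)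
  · rcases mem E hE with ⟨a, b⟩ | ⟨F, a, -, rfl, k⟩ <;>
      rcases mem E' hE' with ⟨a', b'⟩ | ⟨F', a', -, rfl, k'⟩
    · exact hG.int E a E' a'
    · exact mix E a b F' a'
    · exact fun h => mix E' a' b' F a h.symm
    · intro h
      have c := hd F a F' a' h
      refine (h1 _ inter_subset_right).1 k ?_
      have e : R \ (F.erase z ∩ R) = F'.erase z ∩ R := by
        ext x
        have c1 := @c x
        have c2 : x ∈ F.erase z → x ∉ F'.erase z := fun u => disjoint_left.1 h u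
        simp only [mem_sdiff, mem_inter, mem_erase, mem_union] at c1 c2 ⊢
        have c3 : x ∈ R → x ≠ z := fun u v => hz (v ▸ u)
        tauto
      exact e ▸ k'
  · rw [sum_union (disjoint_left.2 fun E a b => (mem_sdiff.1 (mem_filter.1 b).1).2 a),
      ← sum_filter_add_sum_filter_not G (fun E => z ∈ E) ω]
    have e1 : ∑ E ∈ G.filter (fun E => z ∈ E), ω E = ∑ E ∈ I, ω (insert z E) := by
      rw [hI, sum_image fun A a B b h => by
        have a' := (mem_filter.1 (mem_coe.1 a)).2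
        have b' := (mem_filter.1 (mem_coe.1 b)).2
        rw [← insert_erase a', ← insert_erase b']
        exact congrArg (insert z) h]
      exact sum_congr rfl fun E hE => by rw [insert_erase (mem_filter.1 hE).2]
    have e2 : ∑ E ∈ I, ω (insert z E) ≤
        ∑ E ∈ G0, ω (insert z E) + ∑ E ∈ I \ G0, ω (insert z E) := by
      rw [← sum_union disjoint_sdiff]
      exact sum_le_sum_of_subset fun E hE => by
        by_cases h : E ∈ G0
        · exact mem_union_left _ h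
        · exact mem_union_right _ (mem_sdiff.2 ⟨hE, h⟩)
    have e3 : ∑ E ∈ G0, ω' E = ∑ E ∈ G0, ω E + ∑ E ∈ G0, ω (insert z E) := by
      rw [← sum_add_distrib]
      exact sum_congr rfl fun E hE => hω E (mem_filter.1 hE).2
    have e4 : ∑ E ∈ (I \ G0).filter (fun E => E ∩ R ∈ K), ω' E =
        ∑ E ∈ (I \ G0).filter (fun E => E ∩ R ∈ K), (ω E + ω (insert z E)) :=
      sum_congr rfl fun E hE => hω E fun h =>
        (mem_erase.1 (sT E (mem_filter.1 hE).1 h)).1 rfl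
    rw [e1, e3, e4, ← hG0]
    omega
  · rcases mem E hE with ⟨a, b⟩ | ⟨F, a, -, c, -⟩
    · exact ⟨E, a, (erase_eq_of_notMem b).symm⟩
    · exact ⟨F, a, c⟩

end Pool.Agent.P.MP_4c0b8d_co.M
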