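import Pool.Agent.P.MP_4c0b8d_co.M.Iface

/-! Quasi-convexity of the box size in one coordinate and the reduction to extremal boxes. -/

namespace Pool.Agent.P.MP_4c0b8d_co.M

open Finset

lemma qc_up (f : ℕ → ℤ) (K : ℕ)
    (hp : ∀ j, j + 2 ≤ K → f j ≤ f (j + 1) → f (j + 1) ≤ f (j + 1 + 1)) :
    ∀ r j, j + 1 + r = K → f j ≤ f (j + 1) → f (j + 1) ≤ f K := by
  intro r
  induction r with
  | zero => exact fun j e _ => by rw [← e]
  | succ r ih =>
    intro j e h
    have h' := hp j (by omega) h
    exact h'.trans (ih (j + 1) (by omega) h')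

lemma qc_prop {al be M a b : ℕ} (hb : b + 1 + a ≤ M + 1)
    (h : be * (M + 1).choose (b + 1) ≤ al * (M + 1).choose a) :
    be * M.choose b ≤ al * M.choose a := by
  refine Nat.le_of_mul_le_mul_right ?_ M.succ_pos
  have e1 : M.choose b * (M + 1) = (M + 1).choose (b + 1) * (b + 1) := by
    rw [mul_comm, Nat.add_one_mul_choose_eq]
  have e2 := Nat.choose_mul_succ_eq M a
  calc be * M.choose b * (M + 1) = be * (M + 1).choose (b + 1) * (b + 1) := by
        rw [mul_assoc, e1, mul_assoc]
    _ ≤ al * (M + 1).choose a * (M + 1 - a) := Nat.mul_le_mul h (by omega)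
    _ = al * M.choose a * (M + 1) := by rw [mul_assoc, ← e2, mul_assoc]

lemma qc_step {P : ℤ} {al be m a K j : ℕ} (ha : K ≤ a + 1) (hm : K + a ≤ m) (hj : j + 2 ≤ K)
    (h : P - ((m - j).choose a * al : ℕ) + ((m - j).choose (K - j) * be : ℕ) ≤
      P - ((m - (j + 1)).choose a * al : ℕ) + ((m - (j + 1)).choose (K - (j + 1)) * be : ℕ)) :
    P - ((m - (j + 1)).choose a * al : ℕ) + ((m - (j + 1)).choose (K - (j + 1)) * be : ℕ) ≤
      P - ((m - (j + 1 + 1)).choose a * al : ℕ) +
        ((m - (j + 1 + 1)).choose (K - (j + 1 + 1)) * be : ℕ) := by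
  obtain ⟨a, rfl⟩ : ∃ a', a = a' + 1 := ⟨a - 1, by omega⟩
  obtain ⟨b, rfl⟩ : ∃ b, K = j + 2 + b := ⟨K - (j + 2), by omega⟩
  obtain ⟨M, rfl⟩ : ∃ M, m = j + 2 + M := ⟨m - (j + 2), by omega⟩
  have k : ∀ x, j + 2 + x - j = x + 1 + 1 ∧ j + 2 + x - (j + 1) = x + 1 ∧
      j + 2 + x - (j + 1 + 1) = x := fun x => by omega
  rw [(k M).1, (k M).2.1, (k b).1, (k b).2.1, Nat.choose_succ_succ' (M + 1) a,
    Nat.choose_succ_succ' (M + 1) (b + 1)] at h
  have h1 : be * (M + 1).choose (b + 1 + 1) ≤ al * (M + 1).choose a := by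
    zify
    push_cast at h
    linarith
  have h2 := qc_prop (by omega) h1
  rw [(k M).2.1, (k M).2.2, (k b).2.1, (k b).2.2, Nat.choose_succ_succ' M a,
    Nat.choose_succ_succ' M b]
  zify at h2
  push_cast
  linarith

lemma qc_upd {ι : Type} [Fintype ι] [DecidableEq ι] (F : ι → ℕ → ℕ) (i : ι → ℕ) (s : ι) (j : ℕ) :
    ∏ u, F u (Function.update i s j u) = F s j * ∏ u ∈ univ.erase s, F u (i u) := by
  rw [← mul_prod_erase univ _ (mem_univ s), Function.update_self]
  congr 1
  exact prod_congr rfl fun u hu => by rw [Function.update_of_ne (ne_of_mem_erase hu)]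

theorem p_QC : S_QC := by
  intro ι _ _ n k t s i j hk hj
  have hd : dl t s ≤ 1 := by
    unfold dl
    split_ifs <;> omega
  have e : ∀ j, h n k t (Function.update i s j) =
      ((∏ u, (n u - dl t u).choose (k u - dl t u) : ℕ) : ℤ) -
        ((n s - dl t s - j).choose (k s - dl t s) *
          ∏ u ∈ univ.erase s, (n u - dl t u - i u).choose (k u - dl t u) : ℕ) +
        ((n s - dl t s - j).choose (k s - j) *
          ∏ u ∈ univ.erase s, (n u - dl t u - i u).choose (k u - i u) : ℕ) := fun j => by
    rw [h, qc_upd (fun u x => (n u - dl t u - x).choose (k u - dl t u)),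
      qc_upd (fun u x => (n u - dl t u - x).choose (k u - x))]
  have key := qc_up (fun j => h n k t (Function.update i s j)) (k s) (fun j hj' hh => by
    have := hk s
    simp only [e] at hh ⊢
    exact qc_step (by omega) (by omega) hj' hh) (k s - (j + 1)) j (by omega)
  exact ⟨fun hh => hh.trans (key hh), (le_total _ _).imp_left key⟩

lemma qc_ext (h1 : S_VAL) (h3 : S_DT) {ι : Type} [Fintype ι] [DecidableEq ι] (n k : ι → ℕ) (t : ι)
    (i : ι → ℕ) (hk : ∀ u, 1 ≤ k u ∧ 2 * k u ≤ n u) (ht : k t = 1 → i t = 0)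
    (hx : ∀ u, i u = 0 ∨ i u = k u) (hs : 2 ≤ ∑ u, i u) : h n k t i ≤ Mx n k := by
  obtain ⟨S, hS⟩ : ∃ S : Finset ι, ∀ u, u ∈ S ↔ u ≠ t ∧ i u = k u :=
    ⟨univ.filter fun u => u ≠ t ∧ i u = k u, fun u => by simp⟩
  have htS : t ∉ S := fun e => ((hS t).1 e).1 rfl
  have hkt := (hk t).1
  by_cases h0 : i t = 0
  · have e : i = fun u => if u ∈ S then k u else 0 := by
      funext u
      split_ifs with hu
      · exact ((hS u).1 hu).2
      · by_cases hut : u = t
        · rw [hut, h0]
        · exact (hx u).resolve_right fun c => hu ((hS u).2 ⟨hut, c⟩)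
    have hs' : 2 ≤ ∑ u ∈ S, k u := by
      rw [e, sum_ite_mem, univ_inter] at hs
      exact hs
    by_cases h2 : k t = 1
    · have e' : i = ex k t S := by
        rw [e]
        funext u
        simp [ex, h2]
      rw [e', h1 ι n k t S hk htS]
      exact_mod_cast le_Mx htS (Or.inr hs')
    · rw [e]
      exact h3 ι n k t S hk htS (by omega) hs'
  · have h2 : k t ≠ 1 := fun c => h0 (ht c)
    have e' : i = ex k t S := by
      funext u
      unfold ex
      split_ifs with hu
      · rcases hu with hu | ⟨rfl, -⟩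
        · exact ((hS u).1 hu).2
        · exact (hx u).resolve_left h0
      · exact (hx u).resolve_right fun c => hu (by
          by_cases hut : u = t
          · exact Or.inr ⟨hut, h2⟩
          · exact Or.inl ((hS u).2 ⟨hut, c⟩))
    rw [e', h1 ι n k t S hk htS]
    exact_mod_cast le_Mx htS (Or.inl (by omega))

theorem p_R3 (h1 : S_VAL) (h2 : S_QC) (h3 : S_DT) : S_R3 := by
  intro ι _ _ n k t i hk hi ht hc
  rcases hc with ⟨v, hv, hv2⟩ | ⟨hx, hs⟩
  swap
  · exact qc_ext h1 h3 n k t i hk ht hx hs
  induction hN : ∑ u, (if i u < k u then i u else 0) using Nat.strong_induction_on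
    generalizing i with
  | _ N ih =>
    by_cases hx : ∀ u, i u = 0 ∨ i u = k u
    · exact qc_ext h1 h3 n k t i hk ht hx
        ((hv2.trans hv.ge).trans (single_le_sum (fun _ _ => Nat.zero_le _) (mem_univ v)))
    · push Not at hx
      obtain ⟨s, hs0, hsk⟩ := hx
      have his := hi s
      have step : ∀ x, x ≤ k s → (x < k s → x < i s) →
          h n k t (Function.update i s x) ≤ Mx n k := fun x hx1 hx2 => by
        refine ih _ ?_ (Function.update i s x) (fun u => ?_) (fun c => ?_) ?_ rfl
        · rw [← hN]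
          refine sum_lt_sum (fun u _ => ?_) ⟨s, mem_univ _, ?_⟩
          · by_cases e : u = s
            · rw [e, Function.update_self]
              split_ifs <;> omega
            · rw [Function.update_of_ne e]
          · rw [Function.update_self]
            split_ifs <;> omega
        · by_cases e : u = s
          · rw [e, Function.update_self]
            exact hx1
          · rw [Function.update_of_ne e]
            exact hi u
        · rw [Function.update_of_ne fun e : t = s => hs0 (e ▸ ht c)]
          exact ht c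
        · rw [Function.update_of_ne fun e : v = s => hsk (e ▸ hv)]
          exact hv
      have hq := (h2 ι n k t s i (i s - 1) hk (by omega)).2
      rw [Nat.sub_add_cancel (Nat.pos_of_ne_zero hs0), Function.update_eq_self] at hq
      rcases hq with hq | hq
      · exact hq.trans (step _ le_rfl fun c => absurd c (lt_irrefl _))
      · exact hq.trans (step _ (by omega) fun _ => by omega)

end Pool.Agent.P.MP_4c0b8d_co.M
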