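import Pool.Agent.P.MP_4c0b8d_co.M.Iface

/-! The terminal case: two points in every part that is used. -/

set_option autoImplicit false

namespace Pool.Agent.P.MP_4c0b8d_co.M

open Finset

lemma sg_num {ι : Type} [DecidableEq ι] (n : ι → ℕ) (S : Finset ι) (h : ∀ u ∈ S, 2 ≤ n u) :
    1 ≤ ∏ u ∈ S, (n u - 1) ∧ 2 ^ S.card + ∏ u ∈ S, (n u - 1) ≤ ∏ u ∈ S, n u + 1 := by
  induction S using Finset.induction_on with
  | empty => simp
  | insert a S ha ih =>
    obtain ⟨h1, h2⟩ := ih fun u hu => h u (mem_insert_of_mem hu)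
    obtain ⟨m, hm⟩ := Nat.exists_eq_add_of_le (h a (mem_insert_self _ _))
    have h3 : 1 ≤ 2 ^ S.card := Nat.one_le_two_pow
    rw [prod_insert ha, prod_insert ha, card_insert_of_notMem ha, pow_succ, hm,
      show 2 + m - 1 = m + 1 by omega]
    have h4 := Nat.mul_le_mul_left m h2
    have h5 := Nat.mul_le_mul_left m h3
    exact ⟨Nat.mul_pos m.succ_pos h1, by nlinarith⟩

theorem p_SG (h1 : S_V) (h2 : S_W) : S_SG := by
  intro ι _ _ X k T G o hT g hs
  rcases G.eq_empty_or_nonempty with rfl | ⟨E, hE⟩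
  · exact Nat.zero_le _
  obtain ⟨Q, hQ⟩ : ∃ Q : Finset ι, ∀ u, u ∈ Q ↔ T ∩ X u ≠ ∅ :=
    ⟨univ.filter fun u => T ∩ X u ≠ ∅, fun u => by simp⟩
  have q1 : ∀ u ∈ Q, k u = 1 ∧ (T ∩ X u).card = 2 ∧ ∀ E ∈ G, (E ∩ X u).card = 1 := fun u hu => by
    obtain ⟨a1, a2, a3⟩ := (hs u).resolve_left ((hQ u).1 hu)
    refine ⟨a1, a2, fun E hE => le_antisymm (a1 ▸ le_of_w (g.pos E hE) u) ?_⟩
    exact card_pos.2 (not_disjoint_iff_nonempty_inter.1 (a3 E hE))
  have q2 : ∀ u ∉ Q, ∀ E ⊆ T, (E ∩ X u).card = 0 := fun u hu E hE => by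
    have a1 : T ∩ X u = ∅ := not_not.1 fun a => hu ((hQ u).2 a)
    exact card_eq_zero.2 (subset_empty.1 (a1 ▸ inter_subset_inter_right hE))
  have hw : ∀ E ∈ G, w X k T E = ∏ u ∈ Qᶜ, (X u).card.choose (k u) := fun E hE => by
    rw [h2 ι X k T E o hT (g.sub E hE), ← prod_mul_prod_compl Q, prod_eq_one, one_mul]
    · refine prod_congr rfl fun u hu => ?_
      rw [q2 u (mem_compl.1 hu) T Subset.rfl, q2 u (mem_compl.1 hu) E (g.sub E hE)]
      simp [cf]
    · intro u hu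
      rw [(q1 u hu).2.2 E hE, (q1 u hu).1]
      simp [cf]
  have hV : (V (fun u => T ∩ X u) fun u => if u ∈ Q then 1 else 0).card = 2 ^ Q.card := by
    rw [h1 ι _ _ fun u v e => (o.disj u v e).mono inter_subset_right inter_subset_right,
      ← prod_mul_prod_compl Q, prod_eq_one (s := Qᶜ) fun u hu => by
        rw [if_neg (mem_compl.1 hu), Nat.choose_zero_right], mul_one]
    refine prod_eq_pow_card fun u hu => ?_
    rw [if_pos hu, (q1 u hu).2.1]
    rfl
  have hm : ∀ A ⊆ T, (∀ u ∈ Q, (A ∩ X u).card = 1) →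
      A ∈ V (fun u => T ∩ X u) fun u => if u ∈ Q then 1 else 0 := fun A a1 a2 => by
    refine mem_V.2 ⟨fun x hx => ?_, fun u => ?_⟩
    · obtain ⟨u, -, hu⟩ := mem_biUnion.1 (hT (a1 hx))
      exact mem_biUnion.2 ⟨u, mem_univ _, mem_inter.2 ⟨a1 hx, hu⟩⟩
    · rw [← inter_assoc, inter_eq_left.2 a1]
      split_ifs with e
      · exact a2 u e
      · exact q2 u e A a1
  have hG : G.card + G.card ≤ 2 ^ Q.card := by
    have a1 : (G.image fun A => T \ A).card = G.card :=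
      card_image_of_injOn fun A hA B hB e => by
        have e' : T \ A = T \ B := e
        rw [← Finset.sdiff_sdiff_eq_self (g.sub A hA), e', Finset.sdiff_sdiff_eq_self (g.sub B hB)]
    have a2 : Disjoint G (G.image fun A => T \ A) := disjoint_left.2 fun A hA hA' => by
      obtain ⟨B, hB, rfl⟩ := mem_image.1 hA'
      exact g.int _ hA B hB sdiff_disjoint
    rw [← hV]
    nth_rewrite 2 [← a1]
    rw [← card_union_of_disjoint a2]
    refine card_le_card (union_subset (fun A hA => hm A (g.sub A hA) fun u hu =>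
      (q1 u hu).2.2 A hA) fun A hA => ?_)
    obtain ⟨B, hB, rfl⟩ := mem_image.1 hA
    refine hm _ sdiff_subset fun u hu => ?_
    have b1 := card_sdiff_add_card_inter (T ∩ X u) B
    have b2 : T ∩ X u ∩ B = B ∩ X u := by
      rw [inter_right_comm, inter_eq_right.2 (g.sub B hB)]
    rw [b2, (q1 u hu).2.1, (q1 u hu).2.2 B hB] at b1
    rw [show T \ B ∩ X u = (T ∩ X u) \ B by
      ext x
      simp only [mem_inter, mem_sdiff]
      tauto]
    omega
  have part : ∀ A ∈ G, ∀ x ∈ A, ∃ u ∈ Q, x ∈ X u := fun A hA x hx => by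
    obtain ⟨u, -, hu⟩ := mem_biUnion.1 (hT (g.sub A hA hx))
    exact ⟨u, (hQ u).2 (ne_empty_of_mem (mem_inter.2 ⟨g.sub A hA hx, hu⟩)), hu⟩
  have sep : ∀ A ∈ G, ∀ x ∈ A, ∀ y ∈ A, x ≠ y → ∀ u ∈ Q, ∀ v, x ∈ X u → y ∈ X v → u ≠ v := by
    rintro A hA x hx y hy e u hu v a1 a2 rfl
    exact e (card_le_one.1 ((q1 u hu).2.2 A hA).le x (mem_inter.2 ⟨hx, a1⟩) y
      (mem_inter.2 ⟨hy, a2⟩))
  have three : ∀ A ∈ G, ∀ B ∈ G, ∀ C ∈ G, ∀ x y z, x ∈ A → y ∈ A → y ∈ B → z ∈ B → x ∈ C →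
      z ∈ C → x ≠ y → y ≠ z → x ≠ z → 2 < Q.card := by
    intro A hA B hB C hC x y z a1 a2 a3 a4 a5 a6 e1 e2 e3
    obtain ⟨u, u1, u2⟩ := part A hA x a1
    obtain ⟨v, v1, v2⟩ := part A hA y a2
    obtain ⟨s, s1, s2⟩ := part B hB z a4
    exact two_lt_card.2 ⟨u, u1, v, v1, s, s1, sep A hA x a1 y a2 e1 u u1 v u2 v2,
      sep C hC x a5 z a6 e3 u u1 s u2 s2, sep B hB y a3 z a4 e2 v v1 s v2 s2⟩
  have h3 : 2 < Q.card := by
    obtain ⟨x, x1, -⟩ := not_disjoint_iff.1 (g.int E hE E hE)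
    obtain ⟨A, hA, x2⟩ := g.non x (g.sub E hE x1)
    obtain ⟨y, y1, y2⟩ := not_disjoint_iff.1 (g.int E hE A hA)
    obtain ⟨B, hB, y3⟩ := g.non y (g.sub E hE y1)
    obtain ⟨z, z1, z2⟩ := not_disjoint_iff.1 (g.int E hE B hB)
    have e1 : x ≠ y := fun e => x2 (e ▸ y2)
    by_cases e : x = z
    · obtain ⟨v, v1, v2⟩ := not_disjoint_iff.1 (g.int A hA B hB)
      exact three E hE A hA B hB x y v x1 y1 y2 v1 (e ▸ z2) v2 e1 (fun a => y3 (a ▸ v2))
        fun a => x2 (a ▸ v1)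
    · exact three E hE E hE E hE x y z x1 y1 y1 z1 x1 z1 e1 (fun a => y3 (a ▸ z2)) e
  obtain ⟨t, ht⟩ := card_pos.1 (show 0 < Q.card by omega)
  have c1 := card_erase_add_one ht
  have n2 : ∀ u, 2 ≤ (X u).card := fun u => by
    have := o.pos u
    have := o.two u
    omega
  have k1 : ∀ u ∈ Q.erase t, k u = 1 := fun u hu => (q1 u (mem_of_mem_erase hu)).1
  refine le_trans ?_ (le_Mx (t := t) (S := Q.erase t) (notMem_erase _ _) (Or.inr ?_))
  · obtain ⟨-, b1⟩ := sg_num (fun u => (X u).card) (Q.erase t) fun u _ => n2 u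
    rw [sum_congr rfl hw, sum_const, smul_eq_mul, val, insert_erase ht, mul_comm, (q1 t ht).1,
      if_pos rfl, Nat.sub_self, Nat.choose_zero_right, Nat.choose_zero_right, one_mul, one_mul,
      prod_congr (s₁ := Q.erase t) rfl fun u hu => show (X u).card.choose (k u) = (X u).card by
        rw [k1 u hu, Nat.choose_one_right],
      prod_congr (s₁ := Q.erase t) rfl fun u hu =>
        show ((X u).card - k u).choose (k u) = (X u).card - 1 by
          rw [k1 u hu, Nat.choose_one_right]]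
    refine Nat.mul_le_mul_left _ ?_
    have b2 := n2 t
    rw [← c1, pow_succ] at hG
    omega
  · rw [sum_congr rfl k1, sum_const, smul_eq_mul]
    omega

end Pool.Agent.P.MP_4c0b8d_co.M
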