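import Pool.Agent.P.MP_4c0b8d_co.M.Iface

/-! Shifting away from a point, and one full step. -/

namespace Pool.Agent.P.MP_4c0b8d_co.M

open Finset

/-- The shift from `z` to `i` inside the family `G`. -/
def sh_f (G : Finset (Finset ℕ)) (z i : ℕ) (E : Finset ℕ) : Finset ℕ :=
  if z ∈ E ∧ i ∉ E ∧ insert i (E.erase z) ∉ G then insert i (E.erase z) else E

lemma sh_cases (G : Finset (Finset ℕ)) (z i : ℕ) (E : Finset ℕ) :
    (z ∈ E ∧ i ∉ E ∧ insert i (E.erase z) ∉ G ∧ sh_f G z i E = insert i (E.erase z)) ∨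
      ((z ∈ E → i ∉ E → insert i (E.erase z) ∈ G) ∧ sh_f G z i E = E) := by
  unfold sh_f
  split_ifs with h
  · exact Or.inl ⟨h.1, h.2.1, h.2.2, rfl⟩
  · refine Or.inr ⟨fun a b => ?_, rfl⟩
    by_contra c
    exact h ⟨a, b, c⟩

lemma sh_inj (G : Finset (Finset ℕ)) (z i : ℕ) : Set.InjOn (sh_f G z i) G := by
  intro E hE E' hE' h
  rcases sh_cases G z i E with ⟨a1, a2, a3, a4⟩ | ⟨-, a4⟩ <;>
    rcases sh_cases G z i E' with ⟨b1, b2, b3, b4⟩ | ⟨-, b4⟩ <;> rw [a4, b4] at h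
  · ext x
    have := Finset.ext_iff.1 h x
    simp only [mem_insert, mem_erase] at this
    by_cases e : x = z
    · subst e
      simp [a1, b1]
    · by_cases e' : x = i
      · subst e'
        simp [a2, b2]
      · simpa [e, e'] using this
  · exact absurd (h ▸ hE') a3
  · exact absurd (h ▸ hE) b3
  · exact h

lemma sh_int1 {G : Finset (Finset ℕ)} {z i : ℕ} (hG : ∀ E ∈ G, ∀ E' ∈ G, ¬ Disjoint E E')
    {E E' : Finset ℕ} (hE : E ∈ G) (hE' : E' ∈ G) (a2 : i ∉ E)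
    (b : z ∈ E' → i ∉ E' → insert i (E'.erase z) ∈ G) :
    ¬ Disjoint (insert i (E.erase z)) E' := by
  intro d
  have d1 := disjoint_left.1 d
  have hi : i ∉ E' := d1 (mem_insert_self _ _)
  have hz : z ∈ E' := by
    obtain ⟨x, x1, x2⟩ := not_disjoint_iff.1 (hG E hE E' hE')
    by_cases e : x = z
    · exact e ▸ x2
    · exact absurd x2 (d1 (mem_insert_of_mem (mem_erase.2 ⟨e, x1⟩)))
  refine hG E hE _ (b hz hi) (disjoint_left.2 fun x x1 x2 => ?_)
  rcases mem_insert.1 x2 with rfl | x3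
  · exact a2 x1
  · exact d1 (mem_insert_of_mem (mem_erase.2 ⟨(mem_erase.1 x3).1, x1⟩)) (mem_erase.1 x3).2

lemma sh_int {G : Finset (Finset ℕ)} (z i : ℕ) (hG : ∀ E ∈ G, ∀ E' ∈ G, ¬ Disjoint E E')
    {E E' : Finset ℕ} (hE : E ∈ G) (hE' : E' ∈ G) :
    ¬ Disjoint (sh_f G z i E) (sh_f G z i E') := by
  rcases sh_cases G z i E with ⟨-, a2, -, a4⟩ | ⟨a3, a4⟩ <;>
    rcases sh_cases G z i E' with ⟨-, b2, -, b4⟩ | ⟨b3, b4⟩ <;> rw [a4, b4]
  · exact not_disjoint_iff.2 ⟨i, mem_insert_self _ _, mem_insert_self _ _⟩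
  · exact sh_int1 hG hE hE' a2 b3
  · exact fun d => sh_int1 hG hE' hE b2 a3 d.symm
  · exact hG E hE E' hE'

lemma sh_sdiff (G : Finset (Finset ℕ)) {z i : ℕ} {J : Finset ℕ} (hi : i ∈ J) (E : Finset ℕ) :
    sh_f G z i E \ insert z J = E \ insert z J := by
  rcases sh_cases G z i E with ⟨-, -, -, a4⟩ | ⟨-, a4⟩ <;> rw [a4]
  ext x
  simp only [mem_sdiff, mem_insert, mem_erase]
  constructor
  · rintro ⟨rfl | h1, h2⟩
    · exact absurd (Or.inr hi) h2
    · exact ⟨h1.2, h2⟩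
  · rintro ⟨h1, h2⟩
    exact ⟨Or.inr ⟨fun e => h2 (Or.inl e), h1⟩, h2⟩

theorem p_SH : S_SH := by
  intro T C J z ω G hJ hG hω
  induction hn : (G.filter fun E => z ∈ E).card using Nat.strong_induction_on generalizing G with
  | _ n ih =>
  by_cases hst : ∀ E ∈ G, z ∈ E → ∀ i ∈ J, i ∉ E → insert i (E.erase z) ∈ G
  · exact ⟨G, hG, le_rfl, fun E h _ => h, fun E h => ⟨E, h, rfl⟩, Or.inr hst⟩
  push Not at hst
  obtain ⟨E0, hE0, hz0, i, hi, hi0, hn0⟩ := hst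
  have hiz : i ≠ z := (mem_erase.1 (hJ hi)).1
  have hiT : i ∈ T := (mem_erase.1 (hJ hi)).2
  have hle : ∀ E ∈ G, ω E ≤ ω (sh_f G z i E) := by
    intro E hE
    rcases sh_cases G z i E with ⟨a1, a2, -, a4⟩ | ⟨-, a4⟩ <;> rw [a4]
    exact hω E (hG.sub E hE) a1 i hi a2
  by_cases hnon : ∀ x ∈ C, ∃ E ∈ G.image (sh_f G z i), x ∉ E
  · have hG1 : Good T C ω (G.image (sh_f G z i)) := by
      refine ⟨fun E' h => ?_, fun E' h => ?_, fun E1 h1 E2 h2 => ?_, hnon⟩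
      · obtain ⟨E, hE, rfl⟩ := mem_image.1 h
        rcases sh_cases G z i E with ⟨-, -, -, a4⟩ | ⟨-, a4⟩ <;> rw [a4]
        · exact insert_subset hiT ((erase_subset _ _).trans (hG.sub E hE))
        · exact hG.sub E hE
      · obtain ⟨E, hE, rfl⟩ := mem_image.1 h
        exact (hG.pos E hE).trans_le (hle E hE)
      · obtain ⟨E, hE, rfl⟩ := mem_image.1 h1
        obtain ⟨E', hE', rfl⟩ := mem_image.1 h2
        exact sh_int z i hG.int hE hE'
    have hlt : ((G.image (sh_f G z i)).filter fun E => z ∈ E).card < n := by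
      rw [← hn]
      have h0 : E0 ∈ G.filter fun E => z ∈ E := mem_filter.2 ⟨hE0, hz0⟩
      refine lt_of_le_of_lt (card_le_card (t := (G.filter fun E => z ∈ E).erase E0)
        fun E' h => ?_) (card_erase_lt_of_mem h0)
      obtain ⟨h1, h2⟩ := mem_filter.1 h
      obtain ⟨E, hE, rfl⟩ := mem_image.1 h1
      rcases sh_cases G z i E with ⟨-, -, -, a4⟩ | ⟨a3, a4⟩ <;> rw [a4] at h2 ⊢
      · rcases mem_insert.1 h2 with e | e
        · exact absurd e.symm hiz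
        · exact absurd rfl (mem_erase.1 e).1
      · refine mem_erase.2 ⟨?_, mem_filter.2 ⟨hE, h2⟩⟩
        rintro rfl
        exact hn0 (a3 hz0 hi0)
    obtain ⟨G', g1, g2, g3, g4, g5⟩ := ih _ hlt _ hG1 rfl
    refine ⟨G', g1, le_trans ?_ g2, fun E hE hz => g3 E ?_ hz, fun E' h => ?_, g5⟩
    · rw [sum_image (sh_inj G z i)]
      exact sum_le_sum hle
    · refine mem_image.2 ⟨E, hE, ?_⟩
      rcases sh_cases G z i E with ⟨a1, -⟩ | ⟨-, a4⟩
      · exact absurd a1 hz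
      · exact a4
    · obtain ⟨E1, h1, h2⟩ := g4 E' h
      obtain ⟨E, hE, rfl⟩ := mem_image.1 h1
      exact ⟨E, hE, h2.trans (sh_sdiff G hi E)⟩
  · push Not at hnon
    obtain ⟨x, hx, hall⟩ := hnon
    have key : ∀ E ∈ G, x ∉ E → x = i ∧ z ∈ E := by
      intro E hE hxE
      have h1 := hall _ (mem_image_of_mem _ hE)
      rcases sh_cases G z i E with ⟨a1, -, -, a4⟩ | ⟨-, a4⟩ <;> rw [a4] at h1
      · rcases mem_insert.1 h1 with e | e
        · exact ⟨e, a1⟩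
        · exact absurd (mem_erase.1 e).2 hxE
      · exact absurd h1 hxE
    obtain ⟨E1, hE1, hx1⟩ := hG.non x hx
    exact ⟨G, hG, le_rfl, fun E h _ => h, fun E h => ⟨E, h, rfl⟩,
      Or.inl ⟨x, hx, (key E1 hE1 hx1).1 ▸ hi, fun E hE h => (key E hE h).2⟩⟩

theorem p_STEP (h1 : S_SH) (h2 : S_PU) : S_STEP := by
  intro T C J R z ω ω' G hJR hRT hR hG hω' hω hW hcov
  have hne : ∀ x ∈ R, x ≠ z := fun x hx => (mem_erase.1 (hRT hx)).1
  obtain ⟨G1, g1, g2, g3, g4, g5⟩ := h1 T C J z ω G (hJR.trans hRT) hG hω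
  rcases g5 with ⟨y, y1, y2, y3⟩ | hst
  · exact Or.inl ⟨G1, g1, g2, g3, g4, y, y1, hne y (hJR y2),
      fun E hE h => ⟨y3 E hE h, fun c => absurd y2 c⟩⟩
  have tr : ∀ {E F : Finset ℕ}, E \ insert z J = F \ insert z J → ∀ x ∈ R, x ∉ J →
      (x ∈ E ↔ x ∈ F) := by
    intro E F h x hx hxJ
    have := Finset.ext_iff.1 h x
    simpa [hne x hx, hxJ] using this
  have hc : ∀ E ∈ G1, ∀ E' ∈ G1, Disjoint (E.erase z) (E'.erase z) → R ⊆ E ∪ E' := by
    intro E hE E' hE' d x hx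
    have d1 := disjoint_left.1 d
    by_cases hxJ : x ∈ J
    · by_contra c
      rw [mem_union, not_or] at c
      have hz : z ∈ E := by
        obtain ⟨u, u1, u2⟩ := not_disjoint_iff.1 (g1.int E hE E' hE')
        by_cases e : u = z
        · exact e ▸ u1
        · exact absurd (mem_erase.2 ⟨e, u2⟩) (d1 (mem_erase.2 ⟨e, u1⟩))
      refine g1.int _ (hst E hE hz x hxJ c.1) E' hE' (disjoint_left.2 fun u u1 u2 => ?_)
      rcases mem_insert.1 u1 with rfl | u3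
      · exact c.2 u2
      · exact d1 u3 (mem_erase.2 ⟨(mem_erase.1 u3).1, u2⟩)
    · obtain ⟨F, hF, e1⟩ := g4 E hE
      obtain ⟨F', hF', e2⟩ := g4 E' hE'
      have d2 : Disjoint (F ∩ (R \ J)) F' := by
        refine disjoint_left.2 fun u u1 u2 => ?_
        obtain ⟨u3, u4⟩ := mem_inter.1 u1
        obtain ⟨u5, u6⟩ := mem_sdiff.1 u4
        exact d1 (mem_erase.2 ⟨hne u u5, (tr e1 u u5 u6).2 u3⟩)
          (mem_erase.2 ⟨hne u u5, (tr e2 u u5 u6).2 u2⟩)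
      rcases mem_union.1 (hcov F hF F' hF' d2 (mem_sdiff.2 ⟨hx, hxJ⟩)) with a | a
      · exact mem_union_left _ ((tr e1 x hx hxJ).2 a)
      · exact mem_union_right _ ((tr e2 x hx hxJ).2 a)
  obtain ⟨G2, k1, k2, k3, k4⟩ := h2 T R z ω ω' G1 hR (fun h => hne z h rfl)
    ⟨g1.sub, g1.pos, g1.int, fun x hx => absurd hx (notMem_empty x)⟩ hω' hW hc
  by_cases hnon : ∀ y ∈ C.erase z, ∃ E ∈ G2, y ∉ E
  · refine Or.inr ⟨G2, ⟨k1.sub, k1.pos, k1.int, hnon⟩, g2.trans k2, fun E' h => ?_⟩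
    obtain ⟨E, hE, rfl⟩ := k4 E' h
    obtain ⟨F, hF, e⟩ := g4 E hE
    refine ⟨F, hF, Eq.trans ?_ e⟩
    ext x
    simp only [mem_sdiff, mem_insert, mem_erase]
    tauto
  · push Not at hnon
    obtain ⟨y, hy, hall⟩ := hnon
    refine Or.inl ⟨G1, g1, g2, g3, g4, y, (mem_erase.1 hy).2, (mem_erase.1 hy).1,
      fun E hE h => ?_⟩
    have hz : z ∈ E := by
      by_contra c
      exact h (hall E (k3 E hE c))
    refine ⟨hz, fun hyJ i hi => ?_⟩
    by_contra c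
    have hz' : z ∉ insert i (E.erase z) := by
      intro a
      rcases mem_insert.1 a with e | e
      · exact hne i (hJR hi) e.symm
      · exact (mem_erase.1 e).1 rfl
    rcases mem_insert.1 (hall _ (k3 _ (hst E hE hz i hi c) hz')) with e | e
    · exact hyJ (e ▸ hi)
    · exact h (mem_erase.1 e).2

end Pool.Agent.P.MP_4c0b8d_co.M
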