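import Pool.Agent.P.MP_4c0b8d_co.M.Iface

/-! The value of the extremal boxes and the lower bound. -/

set_option linter.unusedSectionVars false

namespace Pool.Agent.P.MP_4c0b8d_co.M

open Finset

lemma val_split {ι : Type} [Fintype ι] [DecidableEq ι] {t : ι} {S : Finset ι} (h : t ∉ S)
    (f g : ι → ℕ) (a : ℕ) (c : ι → ℕ) (h1 : f t = a) (h2 : ∀ u ∈ S, f u = g u)
    (h3 : ∀ u, u ≠ t → u ∉ S → f u = c u) :
    ∏ u, f u = (∏ u ∈ (insert t S)ᶜ, c u) * (a * ∏ u ∈ S, g u) := by
  rw [← prod_mul_prod_compl (insert t S) f, prod_insert h, h1, prod_congr rfl h2, mul_comm]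
  congr 1
  refine prod_congr rfl fun u hu => ?_
  rw [mem_compl, mem_insert, not_or] at hu
  exact h3 u hu.1 hu.2

theorem p_VAL : S_VAL := by
  intro ι _ _ n k t S hk ht
  have hne : ∀ u ∈ S, u ≠ t := fun u hu e => ht (e ▸ hu)
  have e1 := val_split ht (fun u => (n u - dl t u).choose (k u - dl t u))
    (fun u => (n u).choose (k u)) ((n t - 1).choose (k t - 1)) (fun u => (n u).choose (k u))
    (by simp [dl]) (fun u hu => by simp [dl, hne u hu]) (fun u hu _ => by simp [dl, hu])
  have e2 := val_split ht (fun u => (n u - dl t u - ex k t S u).choose (k u - dl t u))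
    (fun u => (n u - k u).choose (k u)) ((n t - k t - 1).choose (k t - 1))
    (fun u => (n u).choose (k u))
    (by
      by_cases e : k t = 1
      · simp [dl, e]
      · simp only [dl, ex, ht, e, if_true, ne_eq, not_false_eq_true, and_self, or_true]
        rw [Nat.sub_right_comm])
    (fun u hu => by simp [dl, ex, hne u hu, hu]) (fun u hu hu' => by simp [dl, ex, hu, hu'])
  have e3 := val_split ht (fun u => (n u - dl t u - ex k t S u).choose (k u - ex k t S u))
    (fun _ => 1) (if k t = 1 then n t - 1 else 1) (fun u => (n u).choose (k u))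
    (by by_cases e : k t = 1 <;> simp [dl, ex, ht, e])
    (fun u hu => by simp [ex, hu]) (fun u hu hu' => by simp [dl, ex, hu, hu'])
  have hle : (n t - k t - 1).choose (k t - 1) * ∏ u ∈ S, (n u - k u).choose (k u) ≤
      (n t - 1).choose (k t - 1) * ∏ u ∈ S, (n u).choose (k u) :=
    Nat.mul_le_mul (Nat.choose_le_choose _ (by omega))
      (prod_le_prod' fun u _ => Nat.choose_le_choose _ (Nat.sub_le _ _))
  unfold h val
  rw [e1, e2, e3, prod_const_one, mul_one, Nat.cast_mul (∏ u ∈ (insert t S)ᶜ, (n u).choose (k u))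
    (_ - _ + _), Nat.cast_add, Nat.cast_sub hle]
  simp only [Nat.cast_mul (∏ u ∈ (insert t S)ᶜ, (n u).choose (k u))]
  ring

theorem p_LOW (h1 : S_POS) (h2 : S_HC) (h3 : S_VAL) : S_LOW := by
  intro ι _ _ X k t S o ht hk
  obtain ⟨y, hy⟩ : (X t).Nonempty := card_pos.1 (by have := o.pos t; have := o.two t; omega)
  have hY : ∀ u, ∃ Y ⊆ (X u).erase y, Y.card = k u := fun u =>
    exists_subset_card_eq (by
      have := pred_card_le_card_erase (s := X u) (a := y)
      have := o.pos u
      have := o.two u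
      omega)
  choose Y hY1 hY2 using hY
  have hYX : ∀ u, Y u ⊆ X u := fun u => (hY1 u).trans (erase_subset _ _)
  have hin : ∀ (Q : Finset ι) (u : ι), Q.biUnion Y ∩ X u = if u ∈ Q then Y u else ∅ := by
    intro Q u
    ext x
    simp only [mem_inter, mem_biUnion]
    constructor
    · rintro ⟨⟨v, hv, hx⟩, hx'⟩
      obtain rfl := o.eq (hYX v hx) hx'
      rwa [if_pos hv]
    · intro hx
      split_ifs at hx with e
      · exact ⟨⟨u, e, hx⟩, hYX u hx⟩
      · exact absurd hx (notMem_empty _)
  have hsub : ∀ Q : Finset ι, Q.biUnion Y ⊆ univ.biUnion X := fun Q x hx => by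
    obtain ⟨v, -, hv⟩ := mem_biUnion.1 hx
    exact mem_biUnion.2 ⟨v, mem_univ _, hYX v hv⟩
  have hyn : ∀ Q : Finset ι, y ∉ Q.biUnion Y := fun Q hx => by
    obtain ⟨v, -, hv⟩ := mem_biUnion.1 hx
    exact notMem_erase _ _ (hY1 v hv)
  set Q := univ.filter fun u => u ∈ S ∨ (u = t ∧ k t ≠ 1) with hQ
  set I := Q.biUnion Y with hI
  have hex : ∀ u, (I ∩ X u).card = ex k t S u := fun u => by
    rw [hI, hin, ex]
    simp only [hQ, mem_filter, mem_univ, true_and]
    split_ifs
    · exact hY2 u
    · rfl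
  have hI2 : 2 ≤ I.card := by
    rcases hk with e | e
    · refine le_trans (e.trans (hY2 t).ge) (card_le_card (subset_biUnion_of_mem Y ?_))
      exact mem_filter.2 ⟨mem_univ _, Or.inr ⟨rfl, by omega⟩⟩
    · have : (S.biUnion Y).card = ∑ u ∈ S, k u := by
        rw [card_biUnion fun u _ v _ huv =>
          (o.disj u v huv).mono (hYX u) (hYX v)]
        exact sum_congr rfl fun u _ => hY2 u
      refine le_trans (e.trans this.ge) (card_le_card (biUnion_subset_biUnion_of_subset_left Y ?_))
      exact fun u hu => mem_filter.2 ⟨mem_univ _, Or.inl hu⟩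
  have hA0 : univ.biUnion Y ∈ H X k y I :=
    mem_filter.2 ⟨mem_V.2 ⟨hsub _, fun u => by rw [hin, if_pos (mem_univ _), hY2]⟩,
      Or.inr ⟨hyn _, biUnion_subset_biUnion_of_subset_left Y (subset_univ _)⟩⟩
  refine ⟨H X k y I, filter_subset _ _, fun A hA B hB => ?_, fun x => ?_, ?_⟩
  · rcases (mem_filter.1 hA).2 with ⟨a1, a2⟩ | ⟨a1, a2⟩ <;>
      rcases (mem_filter.1 hB).2 with ⟨b1, b2⟩ | ⟨b1, b2⟩
    · exact fun d => disjoint_left.1 d a1 b1
    · exact fun d => a2 (d.mono_right b2)
    · exact fun d => b2 (d.symm.mono_right a2)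
    · obtain ⟨z, hz⟩ : I.Nonempty := card_pos.1 (by omega)
      exact fun d => disjoint_left.1 d (a2 hz) (b2 hz)
  · by_cases hx : x ∈ univ.biUnion Y
    swap
    · exact ⟨_, hA0, hx⟩
    have hxy : x ≠ y := fun e => hyn _ (e ▸ hx)
    obtain ⟨z, hz⟩ : (I.erase x).Nonempty := card_pos.1 (by
      have := pred_card_le_card_erase (s := I) (a := x)
      omega)
    obtain ⟨hzx, hzI⟩ := mem_erase.1 hz
    have hw := h1 ι X k {y, x, z} {y, z} o
      (insert_subset (mem_biUnion.2 ⟨t, mem_univ _, hy⟩)
        (insert_subset (hsub _ hx) (singleton_subset_iff.2 (hsub _ hzI))))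
      (by intro a; simp only [mem_insert, mem_singleton]; tauto) (fun u => ?_) (fun u => ?_)
    · obtain ⟨A, hA⟩ := card_pos.1 hw
      obtain ⟨a1, a2⟩ := mem_filter.1 hA
      have b1 : y ∈ A ∩ {y, x, z} := a2 ▸ mem_insert_self _ _
      have b2 : z ∈ A ∩ {y, x, z} := a2 ▸ mem_insert_of_mem (mem_singleton_self _)
      refine ⟨A, mem_filter.2 ⟨a1, Or.inl ⟨(mem_inter.1 b1).1,
        fun d => disjoint_left.1 d (mem_inter.1 b2).1 hzI⟩⟩, fun e => ?_⟩
      have b3 : x ∈ ({y, z} : Finset ℕ) :=
        a2 ▸ mem_inter.2 ⟨e, mem_insert_of_mem (mem_insert_self _ _)⟩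
      rcases mem_insert.1 b3 with e' | e'
      · exact hxy e'
      · exact hzx (mem_singleton.1 e').symm
    · have hp := o.pos u
      by_cases e1 : y ∈ X u
      · by_cases e2 : z ∈ X u
        · obtain rfl := o.eq hy e1
          have h4 : 0 < (I ∩ X t).card := card_pos.2 ⟨z, mem_inter.2 ⟨hzI, e2⟩⟩
          rw [hex, ex] at h4
          have h5 : k t ≠ 1 := fun e => by simp [ht, e] at h4
          have := (card_le_card (inter_subset_left (s₁ := ({y, z} : Finset ℕ)) (s₂ := X t))).trans
            card_le_two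
          omega
        · refine le_trans (card_le_card (t := {y}) fun a ha => ?_) (by simpa using hp)
          obtain ⟨c1, c2⟩ := mem_inter.1 ha
          rcases mem_insert.1 c1 with c | c
          · exact mem_singleton.2 c
          · exact absurd (mem_singleton.1 c ▸ c2) e2
      · refine le_trans (card_le_card (t := {z}) fun a ha => ?_) (by simpa using hp)
        obtain ⟨c1, c2⟩ := mem_inter.1 ha
        rcases mem_insert.1 c1 with c | c
        · exact absurd (c ▸ c2) e1
        · exact c
    · refine le_trans (card_le_card (t := {x}) fun a ha => ?_) (by simpa using o.pos u)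
      have := (mem_inter.1 ha).1
      simp only [mem_sdiff, mem_insert, mem_singleton] at this ⊢
      tauto
  · have h4 := h2 ι X k t y I o hy (hsub _) (hyn _) fun u => by
      rw [hex, ex]
      split_ifs <;> omega
    simp only [hex] at h4
    have h5 := h3 ι (fun u => (X u).card) k t S (fun u => ⟨o.pos u, o.two u⟩) ht
    exact_mod_cast h4.trans h5

end Pool.Agent.P.MP_4c0b8d_co.M
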