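import Pool.Agent.P.MP_4c0b8d_co.M.Iface

/-! The weights of traces. -/

set_option linter.unusedSectionVars false

namespace Pool.Agent.P.MP_4c0b8d_co.M

open Finset

theorem p_V : S_V := by
  intro ι _ _ X k hd
  have e : ∏ u, (X u).card.choose (k u) =
      (Fintype.piFinset fun u => powersetCard (k u) (X u)).card := by
    rw [Fintype.card_piFinset]
    exact prod_congr rfl fun u _ => (card_powersetCard _ _).symm
  have key : ∀ f : ι → Finset ℕ, (∀ u, f u ⊆ X u) → ∀ u, univ.biUnion f ∩ X u = f u := by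
    intro f hf u
    ext x
    simp only [mem_inter, mem_biUnion, mem_univ, true_and]
    refine ⟨fun ⟨⟨v, hv⟩, hx⟩ => ?_, fun hx => ⟨⟨u, hx⟩, hf u hx⟩⟩
    by_cases e : v = u
    · exact e ▸ hv
    · exact absurd hx (disjoint_left.1 (hd v u e) (hf v hv))
  rw [e]
  refine card_bij' (fun A _ u => A ∩ X u) (fun f _ => univ.biUnion f) ?_ ?_ ?_ ?_
  · intro A hA
    exact Fintype.mem_piFinset.2 fun u =>
      mem_powersetCard.2 ⟨inter_subset_right, (mem_V.1 hA).2 u⟩
  · intro f hf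
    have hf' := fun u => mem_powersetCard.1 (Fintype.mem_piFinset.1 hf u)
    exact mem_V.2 ⟨biUnion_mono fun u _ => (hf' u).1, fun u => by
      rw [key f fun u => (hf' u).1, (hf' u).2]⟩
  · intro A hA
    rw [← inter_biUnion]
    exact inter_eq_left.2 (mem_V.1 hA).1
  · intro f hf
    exact funext (key f fun u => (mem_powersetCard.1 (Fintype.mem_piFinset.1 hf u)).1)

theorem p_W (h : S_V) : S_W := by
  intro ι _ _ X k T E o hT hE
  by_cases hk : ∀ u, (E ∩ X u).card ≤ k u
  swap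
  · obtain ⟨u, hu⟩ := not_forall.1 hk
    rw [prod_eq_zero (mem_univ u) (if_neg hu)]
    exact Nat.eq_zero_of_not_pos fun e => hu (le_of_w e u)
  have e1 : ∏ u, cf (X u).card (k u) (T ∩ X u).card (E ∩ X u).card =
      ∏ u, (X u \ T).card.choose (k u - (E ∩ X u).card) := prod_congr rfl fun u _ => by
    rw [cf, if_pos (hk u), card_sdiff]
  rw [e1, ← h ι (fun u => X u \ T) (fun u => k u - (E ∩ X u).card)
    fun u v e => (o.disj u v e).mono sdiff_subset sdiff_subset]
  have sp : ∀ (A : Finset ℕ) (u : ι),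
      (A \ T ∩ (X u \ T)).card + (A ∩ T ∩ X u).card = (A ∩ X u).card := fun A u => by
    rw [← card_sdiff_add_card_inter (A ∩ X u) T]
    congr 2 <;> ext x <;> simp only [mem_inter, mem_sdiff] <;> tauto
  have dj : ∀ B ∈ V (fun u => X u \ T) (fun u => k u - (E ∩ X u).card), ∀ x ∈ B, x ∉ T :=
    fun B hB x hx => by
      obtain ⟨u, -, hu⟩ := mem_biUnion.1 ((mem_V.1 hB).1 hx)
      exact (mem_sdiff.1 hu).2
  have e2 : ∀ B : Finset ℕ, (∀ x ∈ B, x ∉ T) → (B ∪ E) \ T = B ∧ (B ∪ E) ∩ T = E := fun B hB => by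
    constructor <;> ext x <;> simp only [mem_inter, mem_sdiff, mem_union] <;>
      have := hB x <;> have := @hE x <;> tauto
  refine card_bij' (fun A _ => A \ T) (fun B _ => B ∪ E) ?_ ?_ ?_ ?_
  · intro A hA
    obtain ⟨h1, rfl⟩ := mem_filter.1 hA
    refine mem_V.2 ⟨fun x hx => ?_, fun u => ?_⟩
    · obtain ⟨u, -, hu⟩ := mem_biUnion.1 ((mem_V.1 h1).1 (mem_sdiff.1 hx).1)
      exact mem_biUnion.2 ⟨u, mem_univ _, mem_sdiff.2 ⟨hu, (mem_sdiff.1 hx).2⟩⟩
    · have := sp A u
      have := (mem_V.1 h1).2 u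
      omega
  · intro B hB
    obtain ⟨a, b⟩ := e2 B (dj B hB)
    refine mem_filter.2 ⟨mem_V.2 ⟨union_subset ((mem_V.1 hB).1.trans
      (biUnion_mono fun u _ => sdiff_subset)) (hE.trans hT), fun u => ?_⟩, b⟩
    have := sp (B ∪ E) u
    rw [a, b, (mem_V.1 hB).2 u] at this
    have := hk u
    omega
  · intro A hA
    rw [← (mem_filter.1 hA).2, sdiff_union_inter]
  · intro B hB
    exact (e2 B (dj B hB)).1

theorem p_POS (h : S_W) : S_POS := by
  intro ι _ _ X k T E o hT hE h1 h2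
  rw [h ι X k T E o hT hE]
  refine prod_pos fun u _ => ?_
  rw [cf, if_pos (h1 u)]
  refine Nat.choose_pos ?_
  have e : (T ∩ X u).card ≤ (E ∩ X u).card + ((T \ E) ∩ X u).card :=
    (card_le_card fun x hx => by
      simp only [mem_inter, mem_sdiff, mem_union] at hx ⊢
      tauto).trans (card_union_le _ _)
  have := o.two u
  have := h1 u
  have := h2 u
  omega

end Pool.Agent.P.MP_4c0b8d_co.M
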