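import Pool.Agent.P.MP_4c0b8d_co.M.Iface

/-! Comparison of weights under a shift. -/

set_option linter.unusedSectionVars false

namespace Pool.Agent.P.MP_4c0b8d_co.M

open Finset

lemma wa_sub {T E : Finset ℕ} {z i : ℕ} (h : E ⊆ T) (hi : i ∈ T) : insert i (E.erase z) ⊆ T :=
  insert_subset hi ((erase_subset _ _).trans h)

lemma wa_off {E Y : Finset ℕ} {z i : ℕ} (hz : z ∉ Y) (hi : i ∉ Y) :
    insert i (E.erase z) ∩ Y = E ∩ Y := by
  ext x
  simp only [mem_inter, mem_insert, mem_erase]
  grind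

lemma wa_on {E Y : Finset ℕ} {z i : ℕ} (hz : z ∈ Y) (hi : i ∈ Y) (h1 : z ∈ E) (h2 : i ∉ E) :
    (insert i (E.erase z) ∩ Y).card = (E ∩ Y).card := by
  have e : insert i (E.erase z) ∩ Y = insert i ((E ∩ Y).erase z) := by
    ext x
    simp only [mem_inter, mem_insert, mem_erase]
    grind
  have m : z ∈ E ∩ Y := mem_inter.2 ⟨h1, hz⟩
  rw [e, card_insert_of_notMem (fun a => h2 (mem_inter.1 (mem_of_mem_erase a)).1),
    card_erase_of_mem m]
  have := card_pos.2 ⟨z, m⟩
  omega

theorem p_WA (h : S_W) : S_WA := by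
  intro ι _ _ X k T E s z i o hT hE hz hi hiT hzE hiE
  rw [h ι X k T E o hT hE, h ι X k T _ o hT (wa_sub hE hiT)]
  refine prod_congr rfl fun u _ => ?_
  by_cases e : u = s
  · subst e
    rw [wa_on hz hi hzE hiE]
  · rw [wa_off (fun a => e (o.eq a hz)) (fun a => e (o.eq a hi))]

lemma wa_num (a c p q : ℕ) (hp : p ≤ a) (hq : q ≤ c) (h : (p + 1) * (c + 1) ≤ (q + 1) * (a + 1)) :
    a.choose p * c.choose (q + 1) ≤ a.choose (p + 1) * c.choose q := by
  have h1 := Nat.choose_succ_right_eq a p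
  have h2 := Nat.choose_succ_right_eq c q
  obtain ⟨x, rfl⟩ := Nat.exists_eq_add_of_le hp
  obtain ⟨y, rfl⟩ := Nat.exists_eq_add_of_le hq
  rw [Nat.add_sub_cancel_left] at h1 h2
  have h3 : (p + 1) * y ≤ (q + 1) * x := by nlinarith
  refine Nat.le_of_mul_le_mul_right (c := (p + 1) * (q + 1)) ?_ (by positivity)
  calc (p + x).choose p * (q + y).choose (q + 1) * ((p + 1) * (q + 1))
      = (p + x).choose p * ((q + y).choose (q + 1) * (q + 1)) * (p + 1) := by ring
    _ = (p + x).choose p * (q + y).choose q * ((p + 1) * y) := by rw [h2]; ring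
    _ ≤ (p + x).choose p * (q + y).choose q * ((q + 1) * x) := Nat.mul_le_mul_left _ h3
    _ = ((p + x).choose p * x) * (q + y).choose q * (q + 1) := by ring
    _ = (p + x).choose (p + 1) * (q + y).choose q * ((p + 1) * (q + 1)) := by rw [← h1]; ring

lemma wa_two {ι : Type} [Fintype ι] [DecidableEq ι] (f g : ι → ℕ) (s t : ι) (e : s ≠ t)
    (h1 : f s * f t ≤ g s * g t) (h2 : ∀ u, u ≠ s → u ≠ t → f u = g u) :
    ∏ u, f u ≤ ∏ u, g u := by
  have m : t ∈ (univ : Finset ι).erase s := mem_erase.2 ⟨e.symm, mem_univ _⟩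
  rw [← mul_prod_erase univ f (mem_univ s), ← mul_prod_erase _ f m,
    ← mul_prod_erase univ g (mem_univ s), ← mul_prod_erase _ g m, ← mul_assoc, ← mul_assoc]
  refine Nat.mul_le_mul h1 (le_of_eq (prod_congr rfl fun u hu => ?_))
  exact h2 u (mem_erase.1 (mem_of_mem_erase hu)).1 (mem_erase.1 hu).1

theorem p_WB (h : S_W) : S_WB := by
  intro ι _ _ X k T E s t z i o hT hE hs ht hk hzE hiE
  have hz : z ∈ T ∩ X s := by rw [hs]; exact mem_singleton_self _
  have hi : i ∈ T ∩ X t := by rw [ht]; exact mem_singleton_self _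
  obtain ⟨hzT, hzs⟩ := mem_inter.1 hz
  obtain ⟨hiT, hit⟩ := mem_inter.1 hi
  have hzi : z ≠ i := fun a => hiE (a ▸ hzE)
  have e : s ≠ t := by
    rintro rfl
    rw [ht] at hz
    exact hzi (mem_singleton.1 hz)
  have ms : ∀ x, x ∈ T → x ∈ X s → x = z := fun x a b => by
    have : x ∈ T ∩ X s := mem_inter.2 ⟨a, b⟩
    rw [hs] at this
    exact mem_singleton.1 this
  have mt : ∀ x, x ∈ T → x ∈ X t → x = i := fun x a b => by
    have : x ∈ T ∩ X t := mem_inter.2 ⟨a, b⟩
    rw [ht] at this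
    exact mem_singleton.1 this
  have his : i ∉ X s := fun a => e (o.eq a hit)
  have hzt : z ∉ X t := fun a => e (o.eq hzs a)
  have a1 : E ∩ X s = {z} := by
    ext x
    simp only [mem_inter, mem_singleton]
    exact ⟨fun a => ms x (hE a.1) a.2, fun a => a ▸ ⟨hzE, hzs⟩⟩
  have a2 : E ∩ X t = ∅ := by
    refine eq_empty_of_forall_notMem fun x a => ?_
    obtain ⟨a, b⟩ := mem_inter.1 a
    exact hiE (mt x (hE a) b ▸ a)
  have a3 : insert i (E.erase z) ∩ X s = ∅ := by
    refine eq_empty_of_forall_notMem fun x a => ?_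
    obtain ⟨a, b⟩ := mem_inter.1 a
    rcases mem_insert.1 a with rfl | a
    · exact his b
    · exact (mem_erase.1 a).1 (ms x (hE (mem_of_mem_erase a)) b)
  have a4 : insert i (E.erase z) ∩ X t = {i} := by
    ext x
    simp only [mem_inter, mem_singleton]
    exact ⟨fun a => mt x (wa_sub hE hiT a.1) a.2,
      fun a => by rw [a]; exact ⟨mem_insert_self _ _, hit⟩⟩
  rw [h ι X k T E o hT hE, h ι X k T _ o hT (wa_sub hE hiT)]
  refine wa_two _ _ s t e ?_ fun u h1 h2 => ?_
  · rw [a1, a2, a3, a4, hs, ht]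
    have p1 := o.pos s
    have p2 := o.pos t
    have q1 := o.two s
    have q2 := o.two t
    simp only [card_singleton, card_empty, cf, if_pos p1, if_pos p2, if_pos (Nat.zero_le _),
      Nat.sub_zero]
    have := wa_num ((X s).card - 1) ((X t).card - 1) (k s - 1) (k t - 1) (by omega) (by omega)
      (by
        rw [Nat.sub_add_cancel p1, Nat.sub_add_cancel p2, Nat.sub_add_cancel (by omega),
          Nat.sub_add_cancel (by omega)]
        exact hk)
    rwa [Nat.sub_add_cancel p1, Nat.sub_add_cancel p2] at this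
  · rw [wa_off (fun a => h1 (o.eq a hzs)) (fun a => h2 (o.eq a hit))]

lemma wa_num2 (N p q : ℕ) (h : p + q + 1 ≤ N) :
    N.choose p * N.choose q ≤ N.choose (p + 1) * N.choose (q + 1) := by
  have h1 := Nat.choose_succ_right_eq N p
  have h2 := Nat.choose_succ_right_eq N q
  have h3 : q + 1 ≤ N - p := by omega
  have h4 : p + 1 ≤ N - q := by omega
  refine Nat.le_of_mul_le_mul_right (c := (q + 1) * (p + 1)) ?_ (by positivity)
  calc N.choose p * N.choose q * ((q + 1) * (p + 1))
      ≤ N.choose p * N.choose q * ((N - p) * (N - q)) :=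
        Nat.mul_le_mul_left _ (Nat.mul_le_mul h3 h4)
    _ = (N.choose p * (N - p)) * (N.choose q * (N - q)) := by ring
    _ = N.choose (p + 1) * N.choose (q + 1) * ((q + 1) * (p + 1)) := by rw [← h1, ← h2]; ring

lemma wa_cf (n k a b : ℕ) (h : 2 * k ≤ n) :
    cf n k (a + b + 1) (a + 1) * cf n k (a + b + 1) (b + 1) ≤
      cf n k (a + b + 1) a * cf n k (a + b + 1) b := by
  unfold cf
  by_cases h1 : a + 1 ≤ k
  · by_cases h2 : b + 1 ≤ k
    · rw [if_pos h1, if_pos h2, if_pos (by omega), if_pos (by omega)]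
      have := wa_num2 (n - (a + b + 1)) (k - (a + 1)) (k - (b + 1)) (by omega)
      rwa [show k - (a + 1) + 1 = k - a by omega, show k - (b + 1) + 1 = k - b by omega] at this
    · rw [if_neg h2, mul_zero]
      exact Nat.zero_le _
  · rw [if_neg h1, zero_mul]
    exact Nat.zero_le _

theorem p_W2 (h : S_W) : S_W2 := by
  intro ι _ _ X k T E E' s z o hT hzT hzs hE hE' hd hc
  have s1 : E ⊆ T := hE.trans (erase_subset _ _)
  have s2 : E' ⊆ T := hE'.trans (erase_subset _ _)
  have n1 : z ∉ E := fun a => (mem_erase.1 (hE a)).1 rfl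
  have n2 : z ∉ E' := fun a => (mem_erase.1 (hE' a)).1 rfl
  rw [h ι X k T E o hT s1, h ι X k T E' o hT s2, h ι X k T _ o hT (insert_subset hzT s1),
    h ι X k T _ o hT (insert_subset hzT s2), ← prod_mul_distrib, ← prod_mul_distrib]
  refine prod_le_prod' fun u _ => ?_
  by_cases e : u = s
  · subst e
    have c1 : (insert z E ∩ X u).card = (E ∩ X u).card + 1 := by
      rw [insert_inter_of_mem hzs, card_insert_of_notMem fun a => n1 (mem_inter.1 a).1]
    have c2 : (insert z E' ∩ X u).card = (E' ∩ X u).card + 1 := by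
      rw [insert_inter_of_mem hzs, card_insert_of_notMem fun a => n2 (mem_inter.1 a).1]
    have c3 : T ∩ X u = insert z ((E ∩ X u) ∪ (E' ∩ X u)) := by
      ext x
      simp only [mem_inter, mem_insert, mem_union]
      constructor
      · rintro ⟨a, b⟩
        by_cases c : x = z
        · exact Or.inl c
        · rcases mem_union.1 (hc (mem_inter.2 ⟨mem_erase.2 ⟨c, a⟩, b⟩)) with d | d
          · exact Or.inr (Or.inl ⟨d, b⟩)
          · exact Or.inr (Or.inr ⟨d, b⟩)
      · rintro (rfl | a | a)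
        · exact ⟨hzT, hzs⟩
        · exact ⟨s1 a.1, a.2⟩
        · exact ⟨s2 a.1, a.2⟩
    have c4 : (T ∩ X u).card = (E ∩ X u).card + (E' ∩ X u).card + 1 := by
      rw [c3, card_insert_of_notMem, card_union_of_disjoint
        (disjoint_of_subset_right inter_subset_left hd)]
      intro a
      rcases mem_union.1 a with a | a
      · exact n1 (mem_inter.1 a).1
      · exact n2 (mem_inter.1 a).1
    rw [c1, c2, c4]
    exact wa_cf _ _ _ _ (o.two u)
  · have m : z ∉ X u := fun a => e (o.eq a hzs)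
    rw [insert_inter_of_notMem m, insert_inter_of_notMem m]

end Pool.Agent.P.MP_4c0b8d_co.M
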